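import Mathlib

/-!
# A labelling of the 4-cube: evasive, and no label can be forced
-/

namespace Pool.Agent.EdgeGame200

/-- Full patterns. -/
abbrev Pat := Fin 4 → Bool
/-- Partial patterns. -/
abbrev PPat := Fin 4 → Option Bool

/-- The labelling. -/
def lab (x : Pat) : Fin 3 :=
  match x 3, x 2, x 1, x 0 with
  | false, false, false, false => 2
  | false, false, false, true => 1
  | false, false, true, false => 1
  | false, false, true, true => 1
  | false, true, false, false => 2
  | false, true, false, true => 2
  | false, true, true, false => 1
  | false, true, true, true => 1
  | true, false, false, false => 0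
  | true, false, false, true => 0
  | true, false, true, false => 1
  | true, false, true, true => 2
  | true, true, false, false => 2
  | true, true, false, true => 2
  | true, true, true, false => 2
  | true, true, true, true => 2

/-- change one coordinate of a full pattern -/
def setP (x : Pat) (i : Fin 4) (b : Bool) : Pat := fun j => if j = i then b else x j

/-- fill one coordinate of a partial pattern -/
def fill (p : PPat) (i : Fin 4) (b : Bool) : PPat := fun j => if j = i then some b else p j

/-- `x` completes `p` -/
def Compl (p : PPat) (x : Pat) : Prop := ∀ j b, p j = some b → x j = b

instance (p : PPat) (x : Pat) : Decidable (Compl p x) := by unfold Compl; infer_instance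

/-- the coordinate `i` does not influence the label -/
def Irr (p : PPat) (i : Fin 4) : Prop := ∀ x : Pat, Compl p x → lab (setP x i false) = lab (setP x i true)

instance (p : PPat) (i : Fin 4) : Decidable (Irr p i) := by unfold Irr; infer_instance

/-- The position is lost for Hider. -/
def lost : ℕ → PPat → Bool
  | 0, _ => false
  | n + 1, p => decide (∃ i, p i = none ∧ (Irr p i ∨
      (lost n (fill p i false) = true ∧ lost n (fill p i true) = true)))

/-- The completed pattern (unfilled coordinates read as `false`). -/
def tot (p : PPat) : Pat := fun i => (p i).getD false

/-- all coordinates filled -/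
def Full (p : PPat) : Prop := ∀ i, p i ≠ none

instance (p : PPat) : Decidable (Full p) := by unfold Full; infer_instance

/-- Seeker can avoid the label `t` (or reach an irrelevant coordinate). -/
def avoid (t : Fin 3) : ℕ → PPat → Bool
  | 0, p => decide (Full p ∧ lab (tot p) ≠ t)
  | n + 1, p => decide ((Full p ∧ lab (tot p) ≠ t) ∨ ∃ i, p i = none ∧ (Irr p i ∨
      (avoid t n (fill p i false) = true ∧ avoid t n (fill p i true) = true)))

def empt : PPat := fun _ => none

set_option maxRecDepth 100000

theorem lost_empt : lost 4 empt = false := by decide +kernel

theorem lost_step : ∀ p : PPat, lost 4 p = false → ∀ i, p i = none →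
    ∃ b, lost 4 (fill p i b) = false := by decide +kernel

theorem lost_rel : ∀ p : PPat, lost 4 p = false → ∀ i, p i = none →
    ∃ x : Pat, Compl p x ∧ lab (setP x i false) ≠ lab (setP x i true) := by decide +kernel

theorem lost_full : ∀ p : PPat, Full p → lost 4 p = false := by decide +kernel

theorem avoid_empt : ∀ t, avoid t 4 empt = true := by decide +kernel

end Pool.Agent.EdgeGame200
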