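import Mathlib

/-!
# The edge-query game on graphs with vertex set ℕ
-/

namespace Pool.Agent.EdgeGame200

open Set

/-- A finite history: the queried edges with their colours (`true` = green, `false` = red). -/
abbrev Hist := List (Sym2 ℕ × Bool)

/-- The history of the run `(q, c)` after `n` turns. -/
def hist (q : ℕ → Sym2 ℕ) (c : ℕ → Bool) (n : ℕ) : Hist :=
  (List.range n).map (fun i => (q i, c i))

/-- Seeker's moves are legal: he always chooses an edge (not a loop) that is still white. -/
def Legal (q : ℕ → Sym2 ℕ) : Prop :=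
  ∀ n, ¬ (q n).IsDiag ∧ ∀ m < n, q m ≠ q n

/-- The set `G_∞` of green edges at the end of the run. -/
def green (q : ℕ → Sym2 ℕ) (c : ℕ → Bool) : Set (Sym2 ℕ) := {e | ∃ n, q n = e ∧ c n = true}

/-- The set `W_∞` of edges that are still white at the end of the run. -/
def white (q : ℕ → Sym2 ℕ) : Set (Sym2 ℕ) := {e | ¬ e.IsDiag ∧ ∀ n, q n ≠ e}

/-- The set `P_∞` of graphs `G` with `G_∞ ⊆ G ⊆ G_∞ ∪ W_∞`. -/
def final (q : ℕ → Sym2 ℕ) (c : ℕ → Bool) : Set (SimpleGraph ℕ) :=
  {G | green q c ⊆ G.edgeSet ∧ G.edgeSet ⊆ green q c ∪ white q}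

/-- Seeker wins the run: `W_∞` is nonempty, and `P_∞ ⊆ S` or `P_∞ ∩ S = ∅`. -/
def SeekerWinsRun (S : Set (SimpleGraph ℕ)) (q : ℕ → Sym2 ℕ) (c : ℕ → Bool) : Prop :=
  (white q).Nonempty ∧ (final q c ⊆ S ∨ final q c ∩ S = ∅)

/-- Seeker has a winning strategy: a function `σ` of the history such that in every run in which
Seeker follows `σ`, his moves are legal and he wins. -/
def SeekerHasWinningStrategy (S : Set (SimpleGraph ℕ)) : Prop :=
  ∃ σ : Hist → Sym2 ℕ, ∀ q c, (∀ n, q n = σ (hist q c n)) → Legal q ∧ SeekerWinsRun S q c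

/-- Hider has a winning strategy: a function `τ` of the history and the queried edge such that
Seeker wins no legal run in which Hider follows `τ`. -/
def HiderHasWinningStrategy (S : Set (SimpleGraph ℕ)) : Prop :=
  ∃ τ : Hist → Sym2 ℕ → Bool, ∀ q c, Legal q → (∀ n, c n = τ (hist q c n) (q n)) →
    ¬ SeekerWinsRun S q c

theorem Legal.inj {q : ℕ → Sym2 ℕ} (hq : Legal q) : Function.Injective q := by
  intro m n hmn
  rcases lt_trichotomy m n with h | h | h
  · exact absurd hmn ((hq n).2 m h)
  · exact h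
  · exact absurd hmn.symm ((hq m).2 n h)

theorem mem_final {q : ℕ → Sym2 ℕ} {c : ℕ → Bool} (hq : Legal q) {G : SimpleGraph ℕ} :
    G ∈ final q c ↔ ∀ n, (q n ∈ G.edgeSet ↔ c n = true) := by
  constructor
  · rintro ⟨h1, h2⟩ n
    constructor
    · intro h
      rcases h2 h with ⟨k, hk1, hk2⟩ | h3
      · rwa [← hq.inj hk1]
      · exact absurd rfl (h3.2 n)
    · intro h; exact h1 ⟨n, rfl, h⟩
  · intro h
    constructor
    · rintro e ⟨n, rfl, hn⟩
      exact (h n).2 hn
    · intro e he
      by_cases hw : ∃ n, q n = e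
      · obtain ⟨n, rfl⟩ := hw
        exact Or.inl ⟨n, rfl, (h n).1 he⟩
      · push Not at hw
        exact Or.inr ⟨fun hd => G.not_isDiag_of_mem_edgeSet he hd, hw⟩

/-! ### Finite histories following a strategy of Hider -/

/-- queried edges of a finite history -/
def edges (h : Hist) : List (Sym2 ℕ) := h.map Prod.fst

/-- `h'` extends `h` by legal queries answered by `τ` -/
inductive Ext (τ : Hist → Sym2 ℕ → Bool) : Hist → Hist → Prop
  | refl (h : Hist) : Ext τ h h
  | step {h h' : Hist} {e : Sym2 ℕ} : Ext τ h h' → ¬ e.IsDiag → e ∉ edges h' →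
      Ext τ h (h' ++ [(e, τ h' e)])

variable {τ : Hist → Sym2 ℕ → Bool}

theorem Ext.trans {h h' h'' : Hist} (h1 : Ext τ h h') (h2 : Ext τ h' h'') : Ext τ h h'' := by
  induction h2 with
  | refl => exact h1
  | step _ hd he ih => exact Ext.step ih hd he

theorem Ext.isPrefix {h h' : Hist} (h1 : Ext τ h h') : h <+: h' := by
  induction h1 with
  | refl => exact List.prefix_rfl
  | step _ _ _ ih => exact ih.trans (List.prefix_append _ _)

theorem Ext.edges_sub {h h' : Hist} (h1 : Ext τ h h') {e : Sym2 ℕ} (he : e ∈ edges h) :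
    e ∈ edges h' := by
  have := h1.isPrefix.subset
  unfold edges at he ⊢
  rw [List.mem_map] at he ⊢
  obtain ⟨p, hp, rfl⟩ := he
  exact ⟨p, this hp, rfl⟩

/-- `h` is a history of a legal run following `τ` -/
def Good (τ : Hist → Sym2 ℕ → Bool) (h : Hist) : Prop := Ext τ [] h

theorem Good.nil : Good τ [] := Ext.refl _

theorem Good.ext {h h' : Hist} (h1 : Good τ h) (h2 : Ext τ h h') : Good τ h' := Ext.trans h1 h2

theorem Good.spec {h : Hist} (hg : Good τ h) :
    (∀ e ∈ edges h, ¬ e.IsDiag) ∧ (edges h).Nodup ∧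
      ∀ k (hk : k < h.length), (h[k]).2 = τ (h.take k) (h[k]).1 := by
  unfold Good at hg
  induction hg with
  | refl => simp [edges]
  | @step h' e h1 hd he ih =>
    obtain ⟨i1, i2, i3⟩ := ih
    refine ⟨?_, ?_, ?_⟩
    · intro f hf
      simp only [edges, List.map_append, List.map_cons, List.map_nil, List.mem_append,
        List.mem_singleton] at hf
      rcases hf with hf | hf
      · exact i1 f hf
      · rw [hf]; exact hd
    · simp only [edges, List.map_append, List.map_cons, List.map_nil]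
      rw [List.nodup_append]
      refine ⟨i2, by simp, ?_⟩
      intro a ha b hb
      simp only [List.mem_singleton] at hb
      rw [hb]
      rintro rfl
      exact he ha
    · intro k hk
      rw [List.length_append, List.length_singleton] at hk
      rcases Nat.lt_succ_iff_lt_or_eq.1 hk with h | h
      · rw [List.getElem_append_left h, List.take_append_of_le_length h.le]
        exact i3 k h
      · subst h
        simp

/-- infinite runs from chains of finite histories -/
theorem run_of_chain (hs : ℕ → Hist) (h0 : Good τ (hs 0)) (h1 : ∀ n, Ext τ (hs n) (hs (n + 1)))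
    (h2 : ∀ L, ∃ n, L ≤ (hs n).length) :
    ∃ q c, Legal q ∧ (∀ n, c n = τ (hist q c n) (q n)) ∧ ∀ n, hs n = hist q c (hs n).length := by
  have hmono : ∀ m n, m ≤ n → hs m <+: hs n := by
    intro m n hmn
    induction n with
    | zero => simp at hmn; subst hmn; exact List.prefix_rfl
    | succ n ih =>
      rcases Nat.le_succ_iff.1 hmn with h | h
      · exact (ih h).trans (h1 n).isPrefix
      · rw [h]
  have hgood : ∀ n, Good τ (hs n) := by
    intro n
    induction n with
    | zero => exact h0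
    | succ n ih => exact ih.ext (h1 n)
  choose N hN using fun k => h2 (k + 1)
  have hcomp : ∀ m n k (hm : k < (hs m).length) (hn : k < (hs n).length), (hs m)[k] = (hs n)[k] := by
    intro m n k hm hn
    rcases le_total m n with h | h
    · exact (hmono m n h).getElem hm
    · exact ((hmono n m h).getElem hn).symm
  let q : ℕ → Sym2 ℕ := fun k => ((hs (N k))[k]'(hN k)).1
  let c : ℕ → Bool := fun k => ((hs (N k))[k]'(hN k)).2
  have hhist : ∀ n, hs n = hist q c (hs n).length := by
    intro n
    apply List.ext_getElem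
    · simp [hist]
    · intro k hk1 hk2
      simp only [hist, List.getElem_map, List.getElem_range]
      rw [hcomp n (N k) k hk1 (hN k)]
  have htake : ∀ k, (hs (N k)).take k = hist q c k := by
    intro k
    rw [hhist (N k)]
    unfold hist
    rw [← List.map_take, List.take_range]
    congr 2
    have := hN k
    omega
  refine ⟨q, c, ?_, ?_, hhist⟩
  · intro n
    obtain ⟨s1, s2, _⟩ := (hgood (N n)).spec
    constructor
    · apply s1
      simp only [edges, List.mem_map]
      exact ⟨_, List.getElem_mem (hN n), rfl⟩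
    · intro m hm heq
      have hm' : m < (hs (N n)).length := lt_trans hm (hN n)
      have e1 : q m = (edges (hs (N n)))[m]'(by simpa [edges] using hm') := by
        simp only [edges, List.getElem_map, q]
        rw [hcomp (N m) (N n) m (hN m) hm']
      have e2 : q n = (edges (hs (N n)))[n]'(by simpa [edges] using (hN n)) := by
        simp only [edges, List.getElem_map, q]
      rw [e1, e2, s2.getElem_inj_iff] at heq
      omega
  · intro n
    obtain ⟨_, _, s3⟩ := (hgood (N n)).spec
    have := s3 n (hN n)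
    rw [htake] at this
    exact this

/-- add a query if it is new -/
def addE (τ : Hist → Sym2 ℕ → Bool) (h : Hist) (e : Sym2 ℕ) : Hist :=
  open Classical in if e ∈ edges h then h else h ++ [(e, τ h e)]

theorem addE_ext {h : Hist} {e : Sym2 ℕ} (hd : ¬ e.IsDiag) : Ext τ h (addE τ h e) := by
  unfold addE
  split_ifs with he
  · exact Ext.refl _
  · exact Ext.step (Ext.refl _) hd he

theorem mem_edges_addE {h : Hist} {e f : Sym2 ℕ} :
    f ∈ edges (addE τ h e) ↔ f ∈ edges h ∨ f = e := by
  unfold addE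
  split_ifs with he
  · constructor
    · intro h1; exact Or.inl h1
    · rintro (h1 | h1)
      · exact h1
      · rw [h1]; exact he
  · simp [edges]

/-- query the edges `f 0, f 1, …` in this order -/
def seqH (τ : Hist → Sym2 ℕ → Bool) (h : Hist) (f : ℕ → Sym2 ℕ) : ℕ → Hist
  | 0 => h
  | n + 1 => addE τ (seqH τ h f n) (f n)

theorem mem_edges_seqH {h : Hist} {f : ℕ → Sym2 ℕ} {n : ℕ} {e : Sym2 ℕ} :
    e ∈ edges (seqH τ h f n) ↔ e ∈ edges h ∨ ∃ i < n, f i = e := by
  induction n with
  | zero => simp [seqH]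
  | succ n ih =>
    rw [seqH, mem_edges_addE, ih]
    constructor
    · rintro ((h1 | ⟨i, hi, h1⟩) | h1)
      · exact Or.inl h1
      · exact Or.inr ⟨i, by omega, h1⟩
      · exact Or.inr ⟨n, by omega, h1.symm⟩
    · rintro (h1 | ⟨i, hi, h1⟩)
      · exact Or.inl (Or.inl h1)
      · rcases Nat.lt_succ_iff_lt_or_eq.1 hi with h | h
        · exact Or.inl (Or.inr ⟨i, h, h1⟩)
        · subst h; exact Or.inr h1.symm

theorem seqH_step {h : Hist} {f : ℕ → Sym2 ℕ} (hf : ∀ n, ¬ (f n).IsDiag) (n : ℕ) :
    Ext τ (seqH τ h f n) (seqH τ h f (n + 1)) := addE_ext (hf n)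

theorem seqH_ext {h : Hist} {f : ℕ → Sym2 ℕ} (hf : ∀ n, ¬ (f n).IsDiag) (n : ℕ) :
    Ext τ h (seqH τ h f n) := by
  induction n with
  | zero => exact Ext.refl _
  | succ n ih => exact ih.trans (seqH_step hf n)

/-- agreement of a graph with a finite history -/
def Agr (G : SimpleGraph ℕ) (h : Hist) : Prop := ∀ p ∈ h, (p.1 ∈ G.edgeSet ↔ p.2 = true)

theorem Agr.mono {G : SimpleGraph ℕ} {h h' : Hist} (h1 : Ext τ h h') (h2 : Agr G h') : Agr G h :=
  fun p hp => h2 p (h1.isPrefix.subset hp)

theorem agr_of_final {q : ℕ → Sym2 ℕ} {c : ℕ → Bool} (hq : Legal q) {G : SimpleGraph ℕ}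
    (hG : G ∈ final q c) (n : ℕ) : Agr G (hist q c n) := by
  rintro ⟨e, b⟩ hp
  simp only [hist, List.mem_map, List.mem_range] at hp
  obtain ⟨i, _, hi⟩ := hp
  obtain ⟨rfl, rfl⟩ := Prod.mk.inj hi
  exact (mem_final hq).1 hG i

theorem final_of_agr {q : ℕ → Sym2 ℕ} {c : ℕ → Bool} (hq : Legal q) {G : SimpleGraph ℕ}
    (h : ∀ n, Agr G (hist q c n)) : G ∈ final q c := by
  rw [mem_final hq]
  intro n
  apply h (n + 1) (q n, c n)
  simp only [hist, List.mem_map, List.mem_range]
  exact ⟨n, by omega, rfl⟩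

/-- run obtained by querying a sequence of edges with infinite range -/
theorem exists_run {h : Hist} (hg : Good τ h) (f : ℕ → Sym2 ℕ) (hf : ∀ n, ¬ (f n).IsDiag)
    (hinf : (range f).Infinite) :
    ∃ q c, Legal q ∧ (∀ n, c n = τ (hist q c n) (q n)) ∧
      (∀ e, (∃ n, q n = e) ↔ (e ∈ edges h ∨ e ∈ range f)) ∧
      (∀ G ∈ final q c, ∀ n, Agr G (seqH τ h f n)) := by
  classical
  have hub : ∀ L, ∃ n, L ≤ (seqH τ h f n).length := by
    intro L
    obtain ⟨s, hs1, hs2⟩ := hinf.exists_subset_card_eq L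
    have : ∃ n, ∀ e ∈ s, ∃ i < n, f i = e := by
      clear hs2
      induction s using Finset.induction_on with
      | empty => exact ⟨0, by simp⟩
      | insert a s _ ih =>
        obtain ⟨n, hn⟩ := ih (fun e he => hs1 (by simp at he ⊢; exact Or.inr he))
        obtain ⟨k, hk⟩ := hs1 (by simp : a ∈ (↑(insert a s) : Set (Sym2 ℕ)))
        refine ⟨max n (k + 1), ?_⟩
        intro e he
        rw [Finset.mem_insert] at he
        rcases he with rfl | he
        · exact ⟨k, by omega, hk⟩
        · obtain ⟨i, hi, hie⟩ := hn e he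
          exact ⟨i, by omega, hie⟩
    obtain ⟨n, hn⟩ := this
    refine ⟨n, ?_⟩
    have h1 : s ⊆ (edges (seqH τ h f n)).toFinset := by
      intro e he
      rw [List.mem_toFinset, mem_edges_seqH]
      exact Or.inr (hn e he)
    have h2 := Finset.card_le_card h1
    have h3 := List.toFinset_card_le (edges (seqH τ h f n))
    simp only [edges, List.length_map] at h3
    rw [← hs2]
    exact h2.trans h3
  obtain ⟨q, c, hq, hc, hh⟩ := run_of_chain (seqH τ h f) hg (seqH_step hf) hub
  refine ⟨q, c, hq, hc, ?_, ?_⟩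
  · intro e
    constructor
    · rintro ⟨n, rfl⟩
      obtain ⟨k, hk⟩ := hub (n + 1)
      have : q n ∈ edges (seqH τ h f k) := by
        rw [hh k]
        simp only [edges, hist, List.map_map, List.mem_map, List.mem_range, Function.comp]
        exact ⟨n, by omega, rfl⟩
      rw [mem_edges_seqH] at this
      rcases this with h1 | ⟨i, _, h1⟩
      · exact Or.inl h1
      · exact Or.inr ⟨i, h1⟩
    · intro he
      have : ∃ k, e ∈ edges (seqH τ h f k) := by
        rcases he with h1 | ⟨i, h1⟩
        · exact ⟨0, h1⟩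
        · exact ⟨i + 1, mem_edges_seqH.2 (Or.inr ⟨i, by omega, h1⟩)⟩
      obtain ⟨k, hk⟩ := this
      rw [hh k] at hk
      simp only [edges, hist, List.map_map, List.mem_map, List.mem_range, Function.comp] at hk
      obtain ⟨n, _, hn⟩ := hk
      exact ⟨n, hn⟩
  · intro G hG n
    rw [hh n]
    exact agr_of_final hq hG _

theorem infinite_edges (e : Sym2 ℕ) : {f : Sym2 ℕ | ¬ f.IsDiag ∧ f ≠ e}.Infinite := by
  have h1 : (range (fun n : ℕ => s(0, n + 1))).Infinite := by
    apply infinite_range_of_injective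
    intro m n h
    simp only [Sym2.eq_iff] at h
    omega
  refine (h1.sdiff (finite_singleton e)).mono ?_
  rintro f ⟨⟨n, rfl⟩, hf⟩
  refine ⟨?_, hf⟩
  simp

/-- the run in which everything but `e` is queried -/
theorem exists_full_run {h : Hist} (hg : Good τ h) {e : Sym2 ℕ} (he : ¬ e.IsDiag)
    (heh : e ∉ edges h) :
    ∃ q c, Legal q ∧ (∀ n, c n = τ (hist q c n) (q n)) ∧ white q = {e} ∧
      (∀ G ∈ final q c, Agr G h) ∧
      (∀ A : Finset (Sym2 ℕ), (∀ f ∈ A, ¬ f.IsDiag ∧ f ≠ e) → ∃ h', Ext τ h h' ∧ e ∉ edges h' ∧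
        (∀ f ∈ A, f ∈ edges h') ∧ ∀ G ∈ final q c, Agr G h') := by
  classical
  obtain ⟨f, hf⟩ := (Set.to_countable {f : Sym2 ℕ | ¬ f.IsDiag ∧ f ≠ e}).exists_eq_range
    (infinite_edges e).nonempty
  have hf1 : ∀ n, ¬ (f n).IsDiag ∧ f n ≠ e := by
    intro n
    have : f n ∈ {f : Sym2 ℕ | ¬ f.IsDiag ∧ f ≠ e} := by rw [hf]; exact ⟨n, rfl⟩
    exact this
  obtain ⟨q, c, hq, hc, hr, hfin⟩ := exists_run hg f (fun n => (hf1 n).1)
    (by rw [← hf]; exact infinite_edges e)
  refine ⟨q, c, hq, hc, ?_, fun G hG => hfin G hG 0, ?_⟩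
  · ext g
    constructor
    · rintro ⟨hg1, hg2⟩
      by_contra hne
      have : g ∈ range f := by rw [← hf]; exact ⟨hg1, hne⟩
      obtain ⟨n, hn⟩ := (hr g).2 (Or.inr this)
      exact hg2 n hn
    · rintro rfl
      refine ⟨he, fun n hn => ?_⟩
      rcases (hr _).1 ⟨n, hn⟩ with h1 | ⟨i, h1⟩
      · exact heh h1
      · exact (hf1 i).2 h1
  · intro A hA
    have : ∃ n, ∀ g ∈ A, ∃ i < n, f i = g := by
      induction A using Finset.induction_on with
      | empty => exact ⟨0, by simp⟩
      | insert a s _ ih =>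
        obtain ⟨n, hn⟩ := ih (fun e he => hA e (Finset.mem_insert_of_mem he))
        have : a ∈ range f := by rw [← hf]; exact hA a (Finset.mem_insert_self _ _)
        obtain ⟨k, hk⟩ := this
        refine ⟨max n (k + 1), ?_⟩
        intro e he
        rw [Finset.mem_insert] at he
        rcases he with rfl | he
        · exact ⟨k, by omega, hk⟩
        · obtain ⟨i, hi, hie⟩ := hn e he
          exact ⟨i, by omega, hie⟩
    obtain ⟨n, hn⟩ := this
    refine ⟨seqH τ h f n, seqH_ext (fun n => (hf1 n).1) n, ?_, ?_, fun G hG => hfin G hG n⟩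
    · rw [mem_edges_seqH]
      rintro (h1 | ⟨i, _, h1⟩)
      · exact heh h1
      · exact (hf1 i).2 h1
    · intro g hg
      rw [mem_edges_seqH]
      exact Or.inr (hn g hg)

/-- every finite history leaves some edge white -/
theorem exists_white (h : Hist) : ∃ e : Sym2 ℕ, ¬ e.IsDiag ∧ e ∉ edges h := by
  have h1 := (infinite_edges s(0, 0)).sdiff (List.finite_toSet (edges h))
  obtain ⟨e, he1, he2⟩ := h1.nonempty
  exact ⟨e, he1.1, he2⟩

/-- querying finitely many edges -/
theorem exists_qlist (h : Hist) (l : List (Sym2 ℕ)) (hl : ∀ e ∈ l, ¬ e.IsDiag) :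
    ∃ h', Ext τ h h' ∧ ∀ e, e ∈ edges h' ↔ (e ∈ edges h ∨ e ∈ l) := by
  induction l generalizing h with
  | nil => exact ⟨h, Ext.refl _, by simp⟩
  | cons a l ih =>
    obtain ⟨h', h1, h2⟩ := ih (addE τ h a) (fun e he => hl e (List.mem_cons_of_mem _ he))
    refine ⟨h', (addE_ext (hl a List.mem_cons_self)).trans h1, ?_⟩
    intro e
    rw [h2, mem_edges_addE, List.mem_cons]
    tauto

end Pool.Agent.EdgeGame200
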