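import Pool.Agent.EdgeGame200.Block

/-!
# The canonical graphs and their rigidity

Vertices `0..8` form a clique; vertex `9` is joined to `4..8`; vertices `9, 10, 11, …` form a ray;
vertex `10+i` (`i ≤ 3`) is joined to `i`; vertex `14+m` is joined to `{0,1,2,3}` according to the
pattern `x m`.
-/

namespace Pool.Agent.EdgeGame200

/-- adjacency for `a < b` -/
def adjLt (x : ℕ → Pat) (a b : ℕ) : Prop :=
  b ≤ 8 ∨ (b = 9 ∧ 4 ≤ a) ∨ (a ≤ 3 ∧ b = 10 + a) ∨
    (∃ i : Fin 4, a = i ∧ 14 ≤ b ∧ x (b - 14) i = true) ∨ (9 ≤ a ∧ b = a + 1)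

/-- The canonical graph. -/
def H (x : ℕ → Pat) : SimpleGraph ℕ where
  Adj a b := (a < b ∧ adjLt x a b) ∨ (b < a ∧ adjLt x b a)
  symm := ⟨fun a b h => h.elim Or.inr Or.inl⟩
  loopless := ⟨fun a h => by rcases h with h | h <;> exact absurd h.1 (lt_irrefl a)⟩

theorem adj_lt {x : ℕ → Pat} {a b : ℕ} (h : a < b) : (H x).Adj a b ↔ adjLt x a b := by
  constructor
  · rintro (⟨_, h2⟩ | ⟨h1, _⟩)
    · exact h2
    · omega
  · intro h2; exact Or.inl ⟨h, h2⟩

theorem adj_QQ {x : ℕ → Pat} {a b : ℕ} (ha : a ≤ 8) (hb : b ≤ 8) (hab : a ≠ b) :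
    (H x).Adj a b := by
  rcases lt_or_gt_of_ne hab with h | h
  · exact (adj_lt h).2 (Or.inl hb)
  · exact ((adj_lt h).2 (Or.inl ha)).symm

theorem adj_Q9 {x : ℕ → Pat} {a : ℕ} (ha : a ≤ 8) : (H x).Adj a 9 ↔ 4 ≤ a := by
  rw [adj_lt (by omega)]
  unfold adjLt
  constructor
  · rintro (h | h | h | ⟨i, h1, h2, _⟩ | h)
    all_goals omega
  · intro h; exact Or.inr (Or.inl ⟨rfl, h⟩)

theorem adj_Qcal {x : ℕ → Pat} {a i : ℕ} (ha : a ≤ 8) (hi : i ≤ 3) :
    (H x).Adj a (10 + i) ↔ a = i := by
  rw [adj_lt (by omega)]
  unfold adjLt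
  constructor
  · rintro (h | h | h | ⟨j, h1, h2, _⟩ | h)
    all_goals omega
  · intro h; exact Or.inr (Or.inr (Or.inl ⟨by omega, by omega⟩))

theorem adj_Qblock {x : ℕ → Pat} {m : ℕ} (i : Fin 4) :
    (H x).Adj i (14 + m) ↔ x m i = true := by
  rw [adj_lt (by omega)]
  unfold adjLt
  constructor
  · rintro (h | h | h | ⟨j, h1, h2, h3⟩ | h)
    · omega
    · omega
    · omega
    · have : i = j := Fin.ext h1
      subst this
      simpa using h3
    · omega
  · intro h
    exact Or.inr (Or.inr (Or.inr (Or.inl ⟨i, rfl, by omega, by simpa using h⟩)))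

theorem not_adj_Ublock {x : ℕ → Pat} {m a : ℕ} (ha : a ≤ 8) (ha' : 4 ≤ a) :
    ¬ (H x).Adj a (14 + m) := by
  rw [adj_lt (by omega)]
  unfold adjLt
  rintro (h | h | h | ⟨j, h1, h2, h3⟩ | h)
  all_goals omega

theorem adj_ray {x : ℕ → Pat} {a b : ℕ} (ha : 9 ≤ a) (hb : 9 ≤ b) :
    (H x).Adj a b ↔ (b = a + 1 ∨ a = b + 1) := by
  have key : ∀ {c d : ℕ}, 9 ≤ c → c < d → (adjLt x c d ↔ d = c + 1) := by
    intro c d hc hcd
    unfold adjLt
    constructor
    · rintro (h | h | h | ⟨j, h1, h2, h3⟩ | h)
      all_goals omega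
    · intro h; exact Or.inr (Or.inr (Or.inr (Or.inr ⟨hc, h⟩)))
  rcases lt_trichotomy a b with h | h | h
  · rw [adj_lt h, key ha h]; omega
  · subst h
    constructor
    · intro h; exact absurd h ((H x).irrefl)
    · intro h; omega
  · rw [SimpleGraph.adj_comm, adj_lt h, key hb h]; omega

/-- Neighbours in the clique of a vertex `≥ 10` are among `0,1,2,3`. -/
theorem adj_Q_ge10 {x : ℕ → Pat} {a n : ℕ} (ha : a ≤ 8) (hn : 10 ≤ n) (h : (H x).Adj a n) :
    a ≤ 3 := by
  rw [adj_lt (by omega)] at h
  unfold adjLt at h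
  rcases h with (h | h | h | ⟨j, h1, h2, h3⟩ | h)
  all_goals omega

/-- A vertex `≥ 9` has at most six neighbours. -/
theorem deg_le {x : ℕ → Pat} {n : ℕ} (hn : 9 ≤ n) (A : Finset ℕ) (hA : ∀ a ∈ A, (H x).Adj a n) :
    A.card ≤ 6 := by
  rcases Nat.eq_or_lt_of_le hn with h | h
  · subst h
    have : A ⊆ {4, 5, 6, 7, 8, 10} := by
      intro a ha
      have h1 := hA a ha
      rcases Nat.lt_or_ge a 9 with h2 | h2
      · rw [adj_Q9 (by omega)] at h1
        simp only [Finset.mem_insert, Finset.mem_singleton]; omega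
      · rw [adj_ray h2 le_rfl] at h1
        simp only [Finset.mem_insert, Finset.mem_singleton]; omega
    exact (Finset.card_le_card this).trans (by decide)
  · have : A ⊆ {0, 1, 2, 3, n - 1, n + 1} := by
      intro a ha
      have h1 := hA a ha
      rcases Nat.lt_or_ge a 9 with h2 | h2
      · have := adj_Q_ge10 (by omega) (by omega) h1
        simp only [Finset.mem_insert, Finset.mem_singleton]; omega
      · rw [adj_ray h2 hn] at h1
        simp only [Finset.mem_insert, Finset.mem_singleton]; omega
    exact (Finset.card_le_card this).trans Finset.card_le_six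

/-- The placed copy of the canonical graph. -/
def Tr (π : Equiv.Perm ℕ) (x : ℕ → Pat) : SimpleGraph ℕ := (H x).comap π.symm

theorem Tr_adj {π : Equiv.Perm ℕ} {x : ℕ → Pat} {a b : ℕ} :
    (Tr π x).Adj a b ↔ (H x).Adj (π.symm a) (π.symm b) := Iff.rfl

theorem Tr_one (x : ℕ → Pat) : Tr (Equiv.refl ℕ) x = H x := by
  ext a b; rfl

/-- nine vertices with at least seven neighbours each occupy the clique positions -/
theorem Q_cert {π : Equiv.Perm ℕ} {x : ℕ → Pat} {B : Finset ℕ} (hB : B.card = 9)
    (h : ∀ v ∈ B, ∃ A : Finset ℕ, 7 ≤ A.card ∧ ∀ a ∈ A, (Tr π x).Adj a v) (v : ℕ) :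
    v ∈ B ↔ π.symm v ≤ 8 := by
  have h1 : ∀ v ∈ B, π.symm v ≤ 8 := by
    intro v hv
    obtain ⟨A, hA1, hA2⟩ := h v hv
    by_contra hcon
    have h2 := deg_le (x := x) (n := π.symm v) (by omega) (A.image π.symm) (by
      intro a ha
      obtain ⟨b, hb, rfl⟩ := Finset.mem_image.1 ha
      exact hA2 b hb)
    rw [Finset.card_image_of_injective _ π.symm.injective] at h2
    omega
  have h2 : B.image π.symm = Finset.range 9 := by
    apply Finset.eq_of_subset_of_card_le
    · intro a ha
      obtain ⟨b, hb, rfl⟩ := Finset.mem_image.1 ha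
      have := h1 b hb
      simp only [Finset.mem_range]; omega
    · rw [Finset.card_image_of_injective _ π.symm.injective, hB, Finset.card_range]
  constructor
  · exact h1 v
  · intro hv
    have : π.symm v ∈ B.image π.symm := by rw [h2, Finset.mem_range]; omega
    obtain ⟨b, hb, hbv⟩ := Finset.mem_image.1 this
    rwa [← π.symm.injective hbv]

/-- block edges -/
def IsBlock (e : Sym2 ℕ) : Prop := ∃ (i : Fin 4) (m : ℕ), e = s((i : ℕ), 14 + m)

theorem adj_nonblock {x x' : ℕ → Pat} {a b : ℕ} (hb : ¬ IsBlock s(a, b)) :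
    (H x).Adj a b ↔ (H x').Adj a b := by
  have key : ∀ {c d : ℕ}, c < d → ¬ IsBlock s(c, d) → (adjLt x c d → adjLt x' c d) := by
    intro c d _ hcd h
    unfold adjLt at h ⊢
    rcases h with (h | h | h | ⟨j, h1, h2, h3⟩ | h)
    · exact Or.inl h
    · exact Or.inr (Or.inl h)
    · exact Or.inr (Or.inr (Or.inl h))
    · exfalso
      apply hcd
      exact ⟨j, d - 14, by rw [h1]; congr 2; omega⟩
    · exact Or.inr (Or.inr (Or.inr (Or.inr h)))
  have key' : ∀ {c d : ℕ}, c < d → ¬ IsBlock s(c, d) → (adjLt x' c d → adjLt x c d) := by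
    intro c d _ hcd h
    unfold adjLt at h ⊢
    rcases h with (h | h | h | ⟨j, h1, h2, h3⟩ | h)
    · exact Or.inl h
    · exact Or.inr (Or.inl h)
    · exact Or.inr (Or.inr (Or.inl h))
    · exfalso
      apply hcd
      exact ⟨j, d - 14, by rw [h1]; congr 2; omega⟩
    · exact Or.inr (Or.inr (Or.inr (Or.inr h)))
  rcases lt_trichotomy a b with h | h | h
  · rw [adj_lt h, adj_lt h]; exact ⟨key h hb, key' h hb⟩
  · subst h; simp
  · rw [SimpleGraph.adj_comm, adj_lt h, SimpleGraph.adj_comm, adj_lt h]
    have hb' : ¬ IsBlock s(b, a) := by rwa [Sym2.eq_swap]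
    exact ⟨key h hb', key' h hb'⟩

section rigid

variable {π : Equiv.Perm ℕ} {x x' : ℕ → Pat} {e : Sym2 ℕ}

/-- Off the edge `e` the placed graph agrees with a canonical graph: the clique is the same. -/
theorem rig_Q (h : ∀ a b, s(a, b) ≠ e → ((Tr π x').Adj a b ↔ (H x).Adj a b)) (v : ℕ) :
    v ≤ 8 ↔ π.symm v ≤ 8 := by
  classical
  have := Q_cert (π := π) (x := x') (B := Finset.range 9) (by simp) (by
    intro v hv
    rw [Finset.mem_range] at hv
    refine ⟨((Finset.range 9).erase v).filter (fun a => s(a, v) ≠ e), ?_, ?_⟩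
    · have h1 : ((Finset.range 9).erase v).card = 8 := by
        rw [Finset.card_erase_of_mem (Finset.mem_range.2 hv)]; simp
      have h2 : (((Finset.range 9).erase v).filter (fun a => ¬ s(a, v) ≠ e)).card ≤ 1 := by
        rw [Finset.card_le_one]
        intro a ha b hb
        simp only [Finset.mem_filter, not_not] at ha hb
        have h3 : s(a, v) = s(b, v) := ha.2.trans hb.2.symm
        rw [Sym2.eq_iff] at h3
        rcases h3 with h3 | h3
        · exact h3.1
        · exact h3.1.trans h3.2
      have h3 := Finset.card_filter_add_card_filter_not (s := (Finset.range 9).erase v)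
        (fun a => s(a, v) ≠ e)
      omega
    · intro a ha
      simp only [Finset.mem_filter, Finset.mem_erase, Finset.mem_range] at ha
      rw [h a v ha.2]
      exact adj_QQ (by omega) (by omega) ha.1.1) v
  rw [← this, Finset.mem_range]
  omega

theorem rig_ray_step (hQ : ∀ v, v ≤ 8 ↔ π.symm v ≤ 8)
    (hray : ∀ a b, 9 ≤ a → 9 ≤ b → ((Tr π x').Adj a b ↔ (b = a + 1 ∨ a = b + 1))) (n : ℕ)
    (hn : 9 ≤ n) : π.symm n = n := by
  have hQ' : ∀ v, 9 ≤ v ↔ 9 ≤ π.symm v := by
    intro v; have := hQ v; omega
  have hadj : ∀ a b, 9 ≤ a → 9 ≤ b → ((Tr π x').Adj a b ↔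
      (π.symm b = π.symm a + 1 ∨ π.symm a = π.symm b + 1)) := by
    intro a b ha hb
    rw [Tr_adj, adj_ray ((hQ' a).1 ha) ((hQ' b).1 hb)]
  -- 9 is fixed
  have h9 : π.symm 9 = 9 := by
    by_contra hne
    have h1 : 10 ≤ π.symm 9 := by have := (hQ' 9).1 le_rfl; omega
    set k := π.symm 9 with hk
    have h2 : 9 ≤ π (k + 1) := by rw [hQ' (π (k + 1)), Equiv.symm_apply_apply]; omega
    have h3 : 9 ≤ π (k - 1) := by rw [hQ' (π (k - 1)), Equiv.symm_apply_apply]; omega
    have h4 : (Tr π x').Adj 9 (π (k + 1)) := by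
      rw [hadj 9 _ le_rfl h2, Equiv.symm_apply_apply]; left; rfl
    have h5 : (Tr π x').Adj 9 (π (k - 1)) := by
      rw [hadj 9 _ le_rfl h3, Equiv.symm_apply_apply]; right; omega
    rw [hray 9 _ le_rfl h2] at h4
    rw [hray 9 _ le_rfl h3] at h5
    have h6 : π (k + 1) = π (k - 1) := by omega
    have := π.injective h6
    omega
  induction n using Nat.strong_induction_on with
  | _ n ih =>
    rcases Nat.eq_or_lt_of_le hn with h | h
    · rw [← h]; exact h9
    · have h1 := ih (n - 1) (by omega) (by omega)
      have h2 : (Tr π x').Adj (n - 1) n := by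
        rw [hray _ _ (by omega) hn]; omega
      rw [hadj _ _ (by omega) hn, h1] at h2
      rcases h2 with h2 | h2
      · omega
      · -- π.symm n = n - 2
        rcases Nat.eq_or_lt_of_le (show 9 ≤ n - 1 by omega) with h3 | h3
        · have := (hQ' n).1 hn
          omega
        · have h4 := ih (n - 2) (by omega) (by omega)
          have h5 : π.symm n = π.symm (n - 2) := by omega
          have := π.symm.injective h5
          omega

/-- The main rigidity statement: a placed copy agreeing with a canonical graph off a structural edge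
agrees with it on that edge as well. -/
theorem rigid (he : ¬ IsBlock e)
    (h : ∀ a b, s(a, b) ≠ e → ((Tr π x').Adj a b ↔ (H x).Adj a b)) (a b : ℕ) :
    (Tr π x').Adj a b ↔ (H x).Adj a b := by
  classical
  have hQ := rig_Q h
  have hQ' : ∀ v, 9 ≤ v ↔ 9 ≤ π.symm v := by
    intro v; have := hQ v; omega
  have hadj : ∀ a b, 9 ≤ a → 9 ≤ b → ((Tr π x').Adj a b ↔
      (π.symm b = π.symm a + 1 ∨ π.symm a = π.symm b + 1)) := by
    intro a b ha hb
    rw [Tr_adj, adj_ray ((hQ' a).1 ha) ((hQ' b).1 hb)]
  -- it suffices to treat the edge e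
  suffices key : ∀ a b, a < b → s(a, b) = e → ((Tr π x').Adj a b ↔ (H x).Adj a b) by
    by_cases hab : s(a, b) = e
    · rcases lt_trichotomy a b with h1 | h1 | h1
      · exact key a b h1 hab
      · subst h1; simp
      · rw [SimpleGraph.adj_comm, key b a h1 (by rw [Sym2.eq_swap]; exact hab),
          SimpleGraph.adj_comm]
    · exact h a b hab
  clear a b
  intro a b hab heq
  rcases Nat.lt_or_ge b 9 with hb | hb
  · -- inside the clique
    rw [Tr_adj]
    constructor
    · intro _; exact adj_QQ (by omega) (by omega) (by omega)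
    · intro _
      exact adj_QQ ((hQ a).1 (by omega)) ((hQ b).1 (by omega))
        (fun h => absurd (π.symm.injective h) (by omega))
  rcases Nat.lt_or_ge a 9 with ha | ha
  · -- crossing edge
    have hray : ∀ a b, 9 ≤ a → 9 ≤ b → ((Tr π x').Adj a b ↔ (b = a + 1 ∨ a = b + 1)) := by
      intro c d hc hd
      rw [h c d, adj_ray hc hd]
      rw [← heq]
      intro h1
      rw [Sym2.eq_iff] at h1
      omega
    have hfix := rig_ray_step hQ hray
    -- equality of the numbers of clique neighbours
    have hcount : ∀ x1 x2 : ℕ → Pat, ∀ n, 9 ≤ n → n ≤ 13 →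
        ((Finset.range 9).filter (fun q => (H x1).Adj q n)) =
        ((Finset.range 9).filter (fun q => (H x2).Adj q n)) := by
      intro x1 x2 n hn1 hn2
      ext q
      simp only [Finset.mem_filter, Finset.mem_range]
      constructor
      · rintro ⟨h1, h2⟩
        refine ⟨h1, ?_⟩
        rwa [adj_nonblock]
        rintro ⟨i, m, h3⟩
        rw [Sym2.eq_iff] at h3
        omega
      · rintro ⟨h1, h2⟩
        refine ⟨h1, ?_⟩
        rwa [adj_nonblock]
        rintro ⟨i, m, h3⟩
        rw [Sym2.eq_iff] at h3
        omega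
    rcases Nat.lt_or_ge b 14 with hb2 | hb2
    · set A := (Finset.range 9).filter (fun q => (Tr π x').Adj q b) with hA
      set C := (Finset.range 9).filter (fun q => (H x).Adj q b) with hC
      have hcard : A.card = C.card := by
        rw [hC, hcount x x' b hb (by omega)]
        have : A.image π.symm = (Finset.range 9).filter (fun q => (H x').Adj q b) := by
          ext q
          simp only [hA, Finset.mem_image, Finset.mem_filter, Finset.mem_range]
          constructor
          · rintro ⟨c, ⟨h1, h2⟩, rfl⟩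
            rw [Tr_adj, hfix b hb] at h2
            exact ⟨by have := (hQ c).1 (by omega); omega, h2⟩
          · rintro ⟨h1, h2⟩
            refine ⟨π q, ⟨?_, ?_⟩, by simp⟩
            · have := (hQ (π q)).2 (by simp; omega)
              omega
            · rw [Tr_adj, hfix b hb, Equiv.symm_apply_apply]; exact h2
        rw [← this, Finset.card_image_of_injective _ π.symm.injective]
      have herase : A.erase a = C.erase a := by
        ext q
        simp only [hA, hC, Finset.mem_erase, Finset.mem_filter, Finset.mem_range]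
        constructor
        · rintro ⟨h1, h2, h3⟩
          refine ⟨h1, h2, ?_⟩
          rwa [← h q b]
          rw [← heq]
          intro h4
          rw [Sym2.eq_iff] at h4
          omega
        · rintro ⟨h1, h2, h3⟩
          refine ⟨h1, h2, ?_⟩
          rwa [h q b]
          rw [← heq]
          intro h4
          rw [Sym2.eq_iff] at h4
          omega
      have hmem : a ∈ A ↔ a ∈ C := by
        by_cases h1 : a ∈ A
        · by_cases h2 : a ∈ C
          · exact ⟨fun _ => h2, fun _ => h1⟩
          · exfalso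
            have h3 := Finset.card_erase_of_mem h1
            rw [herase, Finset.erase_eq_of_notMem h2] at h3
            have := Finset.card_pos.2 ⟨a, h1⟩
            omega
        · by_cases h2 : a ∈ C
          · exfalso
            have h3 := Finset.card_erase_of_mem h2
            rw [← herase, Finset.erase_eq_of_notMem h1] at h3
            have := Finset.card_pos.2 ⟨a, h2⟩
            omega
          · exact ⟨fun h => absurd h h1, fun h => absurd h h2⟩
      simp only [hA, hC, Finset.mem_filter, Finset.mem_range] at hmem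
      constructor
      · intro h1; exact (hmem.1 ⟨by omega, h1⟩).2
      · intro h1; exact (hmem.2 ⟨by omega, h1⟩).2
    · -- b ≥ 14, so a ≥ 4 as e is not a block edge
      have ha4 : 4 ≤ a := by
        by_contra hcon
        apply he
        refine ⟨⟨a, by omega⟩, b - 14, ?_⟩
        rw [← heq]
        simp only
        congr 1
        congr 1
        omega
      obtain ⟨m, rfl⟩ : ∃ m, b = 14 + m := ⟨b - 14, by omega⟩
      have h1 : ¬ (H x).Adj a (14 + m) := not_adj_Ublock (by omega) ha4
      have h2 : (Tr π x').Adj a 9 := by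
        rw [h a 9, adj_Q9 (by omega)]
        · exact ha4
        · rw [← heq]
          intro h4
          rw [Sym2.eq_iff] at h4
          omega
      rw [Tr_adj, hfix 9 le_rfl, adj_Q9 ((hQ a).1 (by omega))] at h2
      have h3 : ¬ (Tr π x').Adj a (14 + m) := by
        rw [Tr_adj, hfix (14 + m) (by omega)]
        exact not_adj_Ublock ((hQ a).1 (by omega)) h2
      exact ⟨fun h => absurd h h3, fun h => absurd h h1⟩
  · -- inside the ray
    have hoff : ∀ c d, 9 ≤ c → 9 ≤ d → s(c, d) ≠ e →
        ((Tr π x').Adj c d ↔ (d = c + 1 ∨ c = d + 1)) := by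
      intro c d hc hd hne
      rw [h c d hne, adj_ray hc hd]
    rw [adj_ray ha hb]
    by_cases hb1 : b = a + 1
    · refine ⟨fun _ => Or.inl hb1, fun _ => ?_⟩
      by_contra hcon
      -- a vertex whose only neighbour on the ray is `w` is placed at 9
      have huniq : ∀ v w, 9 ≤ v → (∀ u, 9 ≤ u → (Tr π x').Adj v u → u = w) → π.symm v = 9 := by
        intro v w hv hu
        by_contra hne
        have h1 : 10 ≤ π.symm v := by have := (hQ' v).1 hv; omega
        set k := π.symm v with hk
        have h2 : 9 ≤ π (k + 1) := by rw [hQ' (π (k + 1)), Equiv.symm_apply_apply]; omega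
        have h3 : 9 ≤ π (k - 1) := by rw [hQ' (π (k - 1)), Equiv.symm_apply_apply]; omega
        have h4 := hu _ h2 (by rw [hadj v _ hv h2, Equiv.symm_apply_apply]; left; rfl)
        have h5 := hu _ h3 (by rw [hadj v _ hv h3, Equiv.symm_apply_apply]; right; omega)
        have := π.injective (h4.trans h5.symm)
        omega
      have hbv : π.symm b = 9 := by
        apply huniq b (b + 1) hb
        intro u hu1 hu2
        have hne : s(b, u) ≠ e := by
          intro h1
          rw [← heq, Sym2.eq_iff] at h1
          have hua : u = a := by omega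
          subst hua
          exact hcon hu2.symm
        rw [hoff b u hb hu1 hne] at hu2
        rcases hu2 with h1 | h1
        · exact h1
        · exfalso
          apply hne
          rw [← heq, Sym2.eq_swap]
          congr 1
          congr 1
          omega
      rcases Nat.eq_or_lt_of_le ha with h1 | h1
      · -- a = 9 has no neighbour on the ray
        have h2' := (hQ' a).1 ha
        have h2 : 9 ≤ π (π.symm a + 1) := by
          rw [hQ' (π (π.symm a + 1)), Equiv.symm_apply_apply]; omega
        have h3 : (Tr π x').Adj a (π (π.symm a + 1)) := by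
          rw [hadj a _ ha h2, Equiv.symm_apply_apply]; left; rfl
        by_cases h4 : s(a, π (π.symm a + 1)) = e
        · rw [← heq, Sym2.eq_iff] at h4
          have h5 : π (π.symm a + 1) = b := by omega
          rw [h5] at h3
          exact hcon h3
        · have h5 := (hoff a _ ha h2 h4).1 h3
          apply h4
          rw [← heq]
          congr 1
          congr 1
          omega
      · have h9 : π.symm 9 = 9 := by
          apply huniq 9 10 le_rfl
          intro u hu1 hu2
          have hne : s(9, u) ≠ e := by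
            intro h2
            rw [← heq, Sym2.eq_iff] at h2
            omega
          rw [hoff 9 u le_rfl hu1 hne] at hu2
          omega
        have := π.symm.injective (hbv.trans h9.symm)
        omega
    · refine ⟨fun h1 => ?_, fun h1 => by omega⟩
      exfalso
      -- b has three neighbours on the ray
      have hb10 : 10 ≤ b := by omega
      have h2 : (Tr π x').Adj b (b - 1) := by
        rw [hoff b (b - 1) hb (by omega)]
        · omega
        · rw [← heq]
          intro h3
          rw [Sym2.eq_iff] at h3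
          omega
      have h3 : (Tr π x').Adj b (b + 1) := by
        rw [hoff b (b + 1) hb (by omega)]
        · omega
        · rw [← heq]
          intro h3
          rw [Sym2.eq_iff] at h3
          omega
      have h4 := h1.symm
      rw [hadj _ _ hb (by omega)] at h2 h3
      rw [hadj _ _ hb ha] at h4
      have i1 : π.symm (b - 1) ≠ π.symm (b + 1) := fun h => absurd (π.symm.injective h) (by omega)
      have i2 : π.symm (b - 1) ≠ π.symm a := fun h => absurd (π.symm.injective h) (by omega)
      have i3 : π.symm (b + 1) ≠ π.symm a := fun h => absurd (π.symm.injective h) (by omega)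
      omega

/-- A canonical graph determines its patterns. -/
theorem unique (h : Tr π x' = H x) : x' = x := by
  have h0 : ∀ a b, (Tr π x').Adj a b ↔ (H x).Adj a b := fun a b => by rw [h]
  have hQ := rig_Q (e := s(0, 0)) (fun a b _ => h0 a b)
  have hfix := rig_ray_step hQ (fun a b ha hb => by rw [h0, adj_ray ha hb])
  have hw : ∀ i : Fin 4, π.symm i = i := by
    intro i
    have h1 : (Tr π x').Adj i (10 + i) := by
      rw [h0, adj_Qcal (by omega) (by omega)]
    rw [Tr_adj, hfix (10 + i) (by omega), adj_Qcal ((hQ _).1 (by omega)) (by omega)] at h1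
    exact h1
  funext m i
  have h1 := h0 i (14 + m)
  rw [Tr_adj, hfix (14 + m) (by omega), hw i, adj_Qblock, adj_Qblock] at h1
  cases h2 : x' m i <;> cases h3 : x m i <;> simp_all

end rigid

theorem Tr_unique {π π' : Equiv.Perm ℕ} {x x' : ℕ → Pat} (h : Tr π x = Tr π' x') : x = x' := by
  apply unique (π := π.trans π'.symm)
  ext a b
  have : (Tr π x).Adj (π' a) (π' b) ↔ (Tr π' x').Adj (π' a) (π' b) := by rw [h]
  rw [Tr_adj, Tr_adj, Equiv.symm_apply_apply, Equiv.symm_apply_apply] at this
  rw [Tr_adj]
  exact this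

end Pool.Agent.EdgeGame200
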