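import Pool.Agent.EdgeGame200.Graph
import Pool.Agent.EdgeGame200.Game

/-!
# Seeker against a strategy of Hider
-/

namespace Pool.Agent.EdgeGame200

open Set

/-- the code of a sequence of patterns -/
def code (x : ℕ → Pat) : ℕ → Fin 3 := fun m => lab (x m)

/-- the property attached to a set of codes -/
def SS (C : Set (ℕ → Fin 3)) : Set (SimpleGraph ℕ) := {G | ∃ π x, G = Tr π x ∧ code x ∈ C}

/-- no run following `τ` is a win of Seeker for a trivial reason -/
def NN (τ : Hist → Sym2 ℕ → Bool) : Prop := ∀ q c, Legal q → (∀ n, c n = τ (hist q c n) (q n)) →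
  (white q).Nonempty → (∃ π x, Tr π x ∈ final q c) ∧
    ¬ ∃ κ, ∀ G ∈ final q c, ∃ π x, G = Tr π x ∧ code x = κ

theorem mem_SS {C : Set (ℕ → Fin 3)} {π : Equiv.Perm ℕ} {x : ℕ → Pat} :
    Tr π x ∈ SS C ↔ code x ∈ C := by
  constructor
  · rintro ⟨π', x', h, h'⟩
    rwa [Tr_unique h]
  · intro h
    exact ⟨π, x, rfl, h⟩

theorem NN_of_win {τ : Hist → Sym2 ℕ → Bool} {C : Set (ℕ → Fin 3)}
    (h : ∀ q c, Legal q → (∀ n, c n = τ (hist q c n) (q n)) → ¬ SeekerWinsRun (SS C) q c) :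
    NN τ := by
  intro q c hq hc hw
  have h1 := h q c hq hc
  unfold SeekerWinsRun at h1
  have h2 : ¬ (final q c ⊆ SS C ∨ final q c ∩ SS C = ∅) := fun h3 => h1 ⟨hw, h3⟩
  push Not at h2
  obtain ⟨h3, h4⟩ := h2
  constructor
  · obtain ⟨G, hG1, π, x, rfl, _⟩ := h4
    exact ⟨π, x, hG1⟩
  · rintro ⟨κ, hκ⟩
    by_cases hC : κ ∈ C
    · apply h3
      intro G hG
      obtain ⟨π, x, rfl, hx⟩ := hκ G hG
      rw [mem_SS, hx]; exact hC
    · obtain ⟨G, hG1, hG2⟩ := h4
      obtain ⟨π, x, rfl, hx⟩ := hκ G hG1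
      rw [mem_SS, hx] at hG2
      exact hC hG2

variable {τ : Hist → Sym2 ℕ → Bool}

/-- role `n` is played by the vertex `v` in all legal completions -/
def Known (h : Hist) (v n : ℕ) : Prop := ∀ π x, Agr (Tr π x) h → π.symm v = n

theorem Known.mono {h h' : Hist} {v n : ℕ} (h2 : Known h v n) (h1 : Ext τ h h') : Known h' v n :=
  fun π x ha => h2 π x (Agr.mono h1 ha)

theorem agr_iff {G G' : SimpleGraph ℕ} {h : Hist} (h1 : Agr G h) (h2 : Agr G' h) {e : Sym2 ℕ}
    (he : e ∈ edges h) : e ∈ G.edgeSet ↔ e ∈ G'.edgeSet := by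
  unfold edges at he
  rw [List.mem_map] at he
  obtain ⟨p, hp, rfl⟩ := he
  rw [h1 p hp, h2 p hp]

/-- legal completions exist -/
theorem exists_LC (hN : NN τ) {h : Hist} (hg : Good τ h) : ∃ π x, Agr (Tr π x) h := by
  obtain ⟨e, he1, he2⟩ := exists_white h
  obtain ⟨q, c, hq, hc, hw, hfin, _⟩ := exists_full_run hg he1 he2
  obtain ⟨⟨π, x, hG⟩, _⟩ := hN q c hq hc (by rw [hw]; exact ⟨_, rfl⟩)
  exact ⟨π, x, hfin _ hG⟩

theorem exists_fresh (h : Hist) (a : ℕ) (B : Finset ℕ) :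
    ∃ v, v ∉ B ∧ v ≠ a ∧ s(a, v) ∉ edges h := by
  have h1 : {v : ℕ | s(a, v) ∈ edges h}.Finite := by
    apply (List.finite_toSet (edges h)).preimage (f := fun v => s(a, v))
    intro v _ v' _ hvv
    simp only [Sym2.eq_iff] at hvv
    omega
  have h2 : ((↑B : Set ℕ) ∪ {a} ∪ {v : ℕ | s(a, v) ∈ edges h}).Finite :=
    ((B.finite_toSet).union (finite_singleton a)).union h1
  obtain ⟨v, hv⟩ := h2.exists_notMem
  simp only [mem_union, Finset.mem_coe, mem_singleton_iff, mem_ofPred_eq, not_or] at hv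
  exact ⟨v, hv.1.1, hv.1.2, hv.2⟩

/-- the nine clique vertices -/
def CB (h : Hist) (B : Finset ℕ) : Prop := ∀ π x, Agr (Tr π x) h → ∀ v, v ∈ B ↔ π.symm v ≤ 8

theorem CB.mono {h h' : Hist} {B : Finset ℕ} (h2 : CB h B) (h1 : Ext τ h h') : CB h' B :=
  fun π x ha => h2 π x (Agr.mono h1 ha)

theorem stepA (hN : NN τ) : ∃ (h : Hist) (B : Finset ℕ), Good τ h ∧ B.card = 9 ∧ CB h B := by
  classical
  obtain ⟨q, c, hq, hc, hw, hfin, hA⟩ := exists_full_run (Good.nil (τ := τ)) (e := s(0,1))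
    (by simp) (by simp [edges])
  obtain ⟨⟨π, x, hG⟩, _⟩ := hN q c hq hc (by rw [hw]; exact ⟨_, rfl⟩)
  set B : Finset ℕ := (Finset.range 9).map π.toEmbedding with hB
  have hcard : B.card = 9 := by rw [hB, Finset.card_map, Finset.card_range]
  have hmem : ∀ v, v ∈ B ↔ π.symm v ≤ 8 := by
    intro v
    rw [hB, Finset.mem_map]
    constructor
    · rintro ⟨a, ha, rfl⟩
      rw [Finset.mem_range] at ha
      simp only [Equiv.coe_toEmbedding, Equiv.symm_apply_apply]
      omega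
    · intro hv
      exact ⟨π.symm v, by rw [Finset.mem_range]; omega, by simp⟩
  obtain ⟨h', h1, _, h3, h4⟩ := hA
    (((B ×ˢ B).image (fun p => s(p.1, p.2))).filter (fun f => ¬ f.IsDiag ∧ f ≠ s(0, 1)))
    (by intro f hf; exact (Finset.mem_filter.1 hf).2)
  refine ⟨h', B, h1, hcard, ?_⟩
  intro π' x' hag
  have := Q_cert (π := π') (x := x') (B := B) hcard (by
    intro v hv
    refine ⟨(B.erase v).filter (fun a => s(a, v) ≠ s(0, 1)), ?_, ?_⟩
    · have h1 : (B.erase v).card = 8 := by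
        rw [Finset.card_erase_of_mem hv, hcard]
      have h2 : ((B.erase v).filter (fun a => ¬ s(a, v) ≠ s(0, 1))).card ≤ 1 := by
        rw [Finset.card_le_one]
        intro a ha b hb
        simp only [Finset.mem_filter, not_not] at ha hb
        have h3 : s(a, v) = s(b, v) := ha.2.trans hb.2.symm
        rw [Sym2.eq_iff] at h3
        rcases h3 with h3 | h3
        · exact h3.1
        · exact h3.1.trans h3.2
      have h3 := Finset.card_filter_add_card_filter_not (s := B.erase v)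
        (fun a => s(a, v) ≠ s(0, 1))
      omega
    · intro a ha
      rw [Finset.mem_filter, Finset.mem_erase] at ha
      have h5 : s(a, v) ∈ edges h' := by
        apply h3
        rw [Finset.mem_filter, Finset.mem_image]
        refine ⟨⟨(a, v), Finset.mem_product.2 ⟨ha.1.2, hv⟩, rfl⟩, ?_, ha.2⟩
        rw [Sym2.mk_isDiag_iff]
        exact ha.1.1
      have h6 := agr_iff hag (h4 _ hG) h5
      rw [SimpleGraph.mem_edgeSet, SimpleGraph.mem_edgeSet] at h6
      rw [h6, Tr_adj]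
      exact adj_QQ ((hmem a).1 ha.1.2) ((hmem v).1 hv)
        (fun h => ha.1.1 (π.symm.injective h)))
  exact this

theorem stepB (hN : NN τ) {h : Hist} (hg : Good τ h) {B : Finset ℕ} (hcert : CB h B) :
    ∃ h' s, Ext τ h h' ∧ Known h' s 9 := by
  classical
  obtain ⟨z, hz⟩ := B.finite_toSet.exists_notMem
  obtain ⟨z', hz1, hz2, hz3⟩ := exists_fresh h z B
  rw [Finset.mem_coe] at hz
  obtain ⟨q, c, hq, hc, hw, hfin, hA⟩ := exists_full_run hg (e := s(z, z'))
    (by rw [Sym2.mk_isDiag_iff]; exact fun h => hz2 h.symm) hz3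
  obtain ⟨⟨π, x, hG⟩, _⟩ := hN q c hq hc (by rw [hw]; exact ⟨_, rfl⟩)
  have hmem := hcert π x (hfin _ hG)
  obtain ⟨h', h1, _, h3, h4⟩ := hA
    ((Finset.Icc 4 8).image (fun j => s(π j, π 9))) (by
      intro f hf
      rw [Finset.mem_image] at hf
      obtain ⟨j, hj, rfl⟩ := hf
      rw [Finset.mem_Icc] at hj
      constructor
      · rw [Sym2.mk_isDiag_iff]
        intro h
        have := π.injective h
        omega
      · intro h
        have hj' : π j ∈ B := by rw [hmem, Equiv.symm_apply_apply]; omega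
        rw [Sym2.eq_iff] at h
        rcases h with h | h
        · exact hz (h.1 ▸ hj')
        · exact hz1 (h.1 ▸ hj'))
  refine ⟨h', π 9, h1, ?_⟩
  intro π' x' hag
  have hmem' := hcert π' x' (Agr.mono h1 hag)
  have h9 : ¬ π'.symm (π 9) ≤ 8 := by
    rw [← hmem', hmem, Equiv.symm_apply_apply]; omega
  by_contra hne
  have h10 : 10 ≤ π'.symm (π 9) := by omega
  have hj : ∀ j ∈ Finset.Icc 4 8, π'.symm (π j) ≤ 3 := by
    intro j hj
    have h5 : s(π j, π 9) ∈ edges h' := h3 _ (Finset.mem_image.2 ⟨j, hj, rfl⟩)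
    have h6 := agr_iff hag (h4 _ hG) h5
    rw [SimpleGraph.mem_edgeSet, SimpleGraph.mem_edgeSet, Tr_adj, Tr_adj, Equiv.symm_apply_apply,
      Equiv.symm_apply_apply] at h6
    rw [Finset.mem_Icc] at hj
    have h7 : (H x).Adj j 9 := (adj_Q9 hj.2).2 hj.1
    have h8 : π'.symm (π j) ≤ 8 := by
      rw [← hmem', hmem, Equiv.symm_apply_apply]; exact hj.2
    exact adj_Q_ge10 h8 h10 (h6.2 h7)
  have hsub : (Finset.Icc 4 8).image (fun j => π'.symm (π j)) ⊆ Finset.range 4 := by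
    intro a ha
    rw [Finset.mem_image] at ha
    obtain ⟨j, hj', rfl⟩ := ha
    have := hj j hj'
    rw [Finset.mem_range]; omega
  have hc1 := Finset.card_le_card hsub
  rw [Finset.card_image_of_injective _ (fun a b hab => π.injective (π'.symm.injective hab))] at hc1
  simp at hc1

theorem stepC (hN : NN τ) {h : Hist} (hg : Good τ h) {B : Finset ℕ} (hBne : B.Nonempty)
    (hcert : CB h B) {v : ℕ → ℕ} {N : ℕ} (hN9 : 9 ≤ N)
    (hv : ∀ k, 9 ≤ k → k ≤ N → Known h (v k) k) :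
    ∃ h' v', Ext τ h h' ∧ Known h' v' (N + 1) ∧
      (∀ e ∈ edges h', e ∈ edges h ∨ ∃ z, z ∉ B ∧ e = s(v N, z)) := by
  classical
  obtain ⟨π0, x0, hag0⟩ := exists_LC hN hg
  have hvB : v N ∉ B := by
    rw [hcert π0 x0 hag0, hv N hN9 le_rfl π0 x0 hag0]; omega
  set Z : Set ℕ := {z | z ∉ B ∧ ∀ k, 9 ≤ k → k ≤ N → z ≠ v k} with hZ
  have hZinf : Z.Infinite := by
    have h1 : ((↑B : Set ℕ) ∪ ↑((Finset.Icc 9 N).image v)).Finite :=
      B.finite_toSet.union (Finset.finite_toSet _)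
    refine h1.infinite_compl.mono ?_
    intro z hz
    simp only [mem_compl_iff, mem_union, Finset.mem_coe, Finset.mem_image, Finset.mem_Icc,
      not_or, not_exists, not_and] at hz
    exact ⟨hz.1, fun k hk1 hk2 hzk => hz.2 k ⟨hk1, hk2⟩ hzk.symm⟩
  obtain ⟨g, hg'⟩ := (Set.to_countable Z).exists_eq_range hZinf.nonempty
  have hgZ : ∀ n, g n ∈ Z := fun n => by rw [hg']; exact ⟨n, rfl⟩
  have hnd : ∀ n, ¬ (s(v N, g n)).IsDiag := by
    intro n
    rw [Sym2.mk_isDiag_iff]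
    exact fun h => (hgZ n).2 N hN9 le_rfl h.symm
  obtain ⟨q, c, hq, hc, hr, hfin⟩ := exists_run hg (fun n => s(v N, g n)) hnd (by
    have h1 : range (fun n => s(v N, g n)) = (fun z => s(v N, z)) '' Z := by
      rw [hg', ← range_comp]; rfl
    rw [h1]
    apply hZinf.image
    intro a _ b _ hab
    simp only [Sym2.eq_iff] at hab
    omega)
  obtain ⟨b, hb⟩ := hBne
  obtain ⟨v0, hv0B, hv0b, hv0⟩ := exists_fresh h b B
  have hwhite : (white q).Nonempty := by
    refine ⟨s(b, v0), by rw [Sym2.mk_isDiag_iff]; exact fun h => hv0b h.symm, ?_⟩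
    intro n hn
    rcases (hr _).1 ⟨n, hn⟩ with h1 | ⟨i, h1⟩
    · exact hv0 h1
    · simp only [Sym2.eq_iff] at h1
      rcases h1 with h1 | h1
      · exact hvB (h1.1 ▸ hb)
      · exact (hgZ i).1 (h1.2 ▸ hb)
  obtain ⟨⟨π, x, hG⟩, _⟩ := hN q c hq hc hwhite
  have hagh : Agr (Tr π x) h := hfin _ hG 0
  have hN' := hv N hN9 le_rfl π x hagh
  have hv'Z : π (N + 1) ∈ Z := by
    constructor
    · rw [hcert π x hagh, Equiv.symm_apply_apply]; omega
    · intro k hk1 hk2 hk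
      have h1 := hv k hk1 hk2 π x hagh
      rw [← hk, Equiv.symm_apply_apply] at h1
      omega
  have hadj : (Tr π x).Adj (v N) (π (N + 1)) := by
    rw [Tr_adj, hN', Equiv.symm_apply_apply, adj_ray hN9 (by omega)]
    exact Or.inl rfl
  obtain ⟨n, hn⟩ : ∃ n, g n = π (N + 1) := by rw [hg'] at hv'Z; exact hv'Z
  have hext : Ext τ h (seqH τ h (fun n => s(v N, g n)) (n + 1)) := seqH_ext hnd _
  refine ⟨seqH τ h (fun n => s(v N, g n)) (n + 1), π (N + 1), hext, ?_, ?_⟩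
  · intro π' x' hag
    have hagh' := Agr.mono hext hag
    have h5 : s(v N, π (N + 1)) ∈ edges (seqH τ h (fun n => s(v N, g n)) (n + 1)) := by
      rw [mem_edges_seqH]
      right
      exact ⟨n, by omega, by simp only [hn]⟩
    have h6 := agr_iff hag (hfin _ hG (n + 1)) h5
    rw [SimpleGraph.mem_edgeSet, SimpleGraph.mem_edgeSet] at h6
    have h7 := h6.2 hadj
    rw [Tr_adj, hv N hN9 le_rfl π' x' hagh'] at h7
    have h8 : ¬ π'.symm (π (N + 1)) ≤ 8 := by
      rw [← hcert π' x' hagh']; exact hv'Z.1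
    rw [adj_ray hN9 (by omega)] at h7
    rcases h7 with h7 | h7
    · exact h7
    · exfalso
      have h9 := hv (π'.symm (π (N + 1))) (by omega) (by omega) π' x' hagh'
      exact hv'Z.2 _ (by omega) (by omega) (π'.symm.injective h9).symm
  · intro e he
    rw [mem_edges_seqH] at he
    rcases he with he | ⟨i, _, he⟩
    · exact Or.inl he
    · exact Or.inr ⟨g i, (hgZ i).1, he.symm⟩

theorem stepC_iter (hN : NN τ) {h : Hist} (hg : Good τ h) {B : Finset ℕ} (hBne : B.Nonempty)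
    (hcert : CB h B) {s : ℕ} (hs : Known h s 9) (n : ℕ) :
    ∃ (h' : Hist) (v : ℕ → ℕ), Ext τ h h' ∧ ∀ k, 9 ≤ k → k ≤ 9 + n → Known h' (v k) k := by
  induction n with
  | zero =>
    refine ⟨h, fun _ => s, Ext.refl _, ?_⟩
    intro k h1 h2
    have : k = 9 := by omega
    subst this
    exact hs
  | succ n ih =>
    obtain ⟨h', v, h1, h2⟩ := ih
    obtain ⟨h'', v', h3, h4, _⟩ := stepC hN (hg.ext h1) hBne (hcert.mono h1) (by omega) h2
    refine ⟨h'', fun k => if k = 9 + n + 1 then v' else v k, h1.trans h3, ?_⟩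
    intro k hk1 hk2
    show Known h'' (if k = 9 + n + 1 then v' else v k) k
    by_cases hk : k = 9 + n + 1
    · rw [if_pos hk, hk]
      exact h4
    · rw [if_neg hk]
      exact (h2 k hk1 (by omega)).mono h3

theorem stepD (hN : NN τ) : ∃ (h : Hist) (B : Finset ℕ) (v : ℕ → ℕ) (w : Fin 4 → ℕ), Good τ h ∧
    B.card = 9 ∧ CB h B ∧ (∀ k, 9 ≤ k → k ≤ 13 → Known h (v k) k) ∧
    (∀ i : Fin 4, Known h (w i) i) := by
  classical
  obtain ⟨hA, B, hA1, hA2, hA3⟩ := stepA hN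
  have hBne : B.Nonempty := by rw [← Finset.card_pos]; omega
  obtain ⟨hB, s, hB1, hB2⟩ := stepB hN hA1 hA3
  obtain ⟨hC, v, hC1, hC2⟩ := stepC_iter hN (hA1.ext hB1) hBne (hA3.mono hB1) hB2 4
  have hgC := (hA1.ext hB1).ext hC1
  have hcC := (hA3.mono hB1).mono hC1
  obtain ⟨π0, x0, hag0⟩ := exists_LC hN hgC
  have hvB : ∀ k, 9 ≤ k → k ≤ 13 → v k ∉ B := by
    intro k hk1 hk2
    rw [hcC π0 x0 hag0, hC2 k hk1 (by omega) π0 x0 hag0]; omega
  set l : List (Sym2 ℕ) := (((B ×ˢ (Finset.univ : Finset (Fin 4))).image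
    (fun p => s(p.1, v (10 + p.2)))).toList) with hl
  have hlmem : ∀ e, e ∈ l ↔ ∃ b ∈ B, ∃ i : Fin 4, e = s(b, v (10 + i)) := by
    intro e
    rw [hl, Finset.mem_toList, Finset.mem_image]
    constructor
    · rintro ⟨⟨b, i⟩, h1, rfl⟩
      exact ⟨b, (Finset.mem_product.1 h1).1, i, rfl⟩
    · rintro ⟨b, hb, i, rfl⟩
      exact ⟨(b, i), Finset.mem_product.2 ⟨hb, Finset.mem_univ _⟩, rfl⟩
  obtain ⟨hD, hD1, hD2⟩ := exists_qlist (τ := τ) hC l (by
    intro e he
    rw [hlmem] at he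
    obtain ⟨b, hb, i, rfl⟩ := he
    rw [Sym2.mk_isDiag_iff]
    intro h
    exact hvB (10 + i) (by omega) (by omega) (h ▸ hb))
  obtain ⟨π1, x1, hag1⟩ := exists_LC hN (hgC.ext hD1)
  have hcD := hcC.mono hD1
  refine ⟨hD, B, v, fun i => π1 i, hgC.ext hD1, hA2, hcD, ?_, ?_⟩
  · intro k hk1 hk2
    exact (hC2 k hk1 (by omega)).mono hD1
  · intro i π x hag
    have hwB : π1 i ∈ B := by
      rw [hcD π1 x1 hag1, Equiv.symm_apply_apply]; omega
    have h5 : s(π1 i, v (10 + i)) ∈ edges hD := by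
      rw [hD2]; right
      rw [hlmem]
      exact ⟨_, hwB, i, rfl⟩
    have h6 := agr_iff hag hag1 h5
    have k1 := ((hC2 (10 + i) (by omega) (by omega)).mono hD1) π x hag
    have k2 := ((hC2 (10 + i) (by omega) (by omega)).mono hD1) π1 x1 hag1
    rw [SimpleGraph.mem_edgeSet, SimpleGraph.mem_edgeSet, Tr_adj, Tr_adj, k1, k2,
      Equiv.symm_apply_apply, adj_Qcal ((hcD π x hag _).1 hwB) (by omega),
      adj_Qcal (by omega) (by omega)] at h6
    exact h6.2 rfl

end Pool.Agent.EdgeGame200
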