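import Pool.Agent.EdgeGame200.Hider

/-!
# Reading and avoiding labels
-/

namespace Pool.Agent.EdgeGame200

open Set

variable {τ : Hist → Sym2 ℕ → Bool}

theorem adj_wv {h : Hist} {w : Fin 4 → ℕ} {v' m : ℕ} (hw : ∀ i : Fin 4, Known h (w i) i)
    (hv : Known h v' (14 + m)) {π : Equiv.Perm ℕ} {x : ℕ → Pat} (hag : Agr (Tr π x) h)
    (i : Fin 4) : s(w i, v') ∈ (Tr π x).edgeSet ↔ x m i = true := by
  rw [SimpleGraph.mem_edgeSet, Tr_adj, hw i π x hag, hv π x hag, adj_Qblock]

theorem compl_of {h : Hist} {w : Fin 4 → ℕ} {v' m : ℕ} (hw : ∀ i : Fin 4, Known h (w i) i)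
    (hv : Known h v' (14 + m)) {p : PPat} (hp : ∀ i b, p i = some b → (s(w i, v'), b) ∈ h)
    {π : Equiv.Perm ℕ} {x : ℕ → Pat} (hag : Agr (Tr π x) h) : Compl p (x m) := by
  intro j b hjb
  have h1 := hag _ (hp j b hjb)
  simp only at h1
  rw [adj_wv hw hv hag] at h1
  cases h2 : x m j <;> cases b <;> simp_all

theorem label_known (hN : NN τ) {h : Hist} (hg : Good τ h) {w : Fin 4 → ℕ} {v' m : ℕ}
    (hw : ∀ i : Fin 4, Known h (w i) i) (hv : Known h v' (14 + m))
    (hq : ∀ i, s(w i, v') ∈ edges h) : ∃ l, ∀ π x, Agr (Tr π x) h → lab (x m) = l := by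
  obtain ⟨π0, x0, hag0⟩ := exists_LC hN hg
  refine ⟨lab (x0 m), ?_⟩
  intro π x hag
  congr 1
  funext i
  have h1 := agr_iff hag hag0 (hq i)
  rw [adj_wv hw hv hag, adj_wv hw hv hag0] at h1
  cases h2 : x m i <;> cases h3 : x0 m i <;> simp_all

theorem H_upd_le {x : ℕ → Pat} {m : ℕ} {i : Fin 4} {P : Pat} (hP : ∀ j, j ≠ i → P j = x m j)
    {a b : ℕ} (hab : a < b) (hne : s(a, b) ≠ s((i : ℕ), 14 + m)) :
    adjLt (Function.update x m P) a b ↔ adjLt x a b := by
  unfold adjLt
  have key : ∀ j : Fin 4, (a = j ∧ 14 ≤ b ∧ Function.update x m P (b - 14) j = true) ↔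
      (a = j ∧ 14 ≤ b ∧ x (b - 14) j = true) := by
    intro j
    by_cases hm : b - 14 = m
    · subst hm
      rw [Function.update_self]
      by_cases hj : j = i
      · subst hj
        constructor
        · rintro ⟨h1, h2, _⟩
          exfalso; apply hne
          rw [h1]; congr 2; omega
        · rintro ⟨h1, h2, _⟩
          exfalso; apply hne
          rw [h1]; congr 2; omega
      · rw [hP j hj]
    · rw [Function.update_of_ne hm]
  simp only [key]

theorem H_upd {x : ℕ → Pat} {m : ℕ} {i : Fin 4} {P : Pat} (hP : ∀ j, j ≠ i → P j = x m j)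
    {a b : ℕ} (hne : s(a, b) ≠ s((i : ℕ), 14 + m)) :
    (H (Function.update x m P)).Adj a b ↔ (H x).Adj a b := by
  rcases lt_trichotomy a b with h | h | h
  · rw [adj_lt h, adj_lt h, H_upd_le hP h hne]
  · subst h; simp
  · rw [SimpleGraph.adj_comm, adj_lt h, SimpleGraph.adj_comm, adj_lt h, H_upd_le hP h]
    rwa [Sym2.eq_swap]

theorem setP_self (x : Pat) (i : Fin 4) : setP x i (x i) = x := by
  funext j
  unfold setP
  split_ifs with h
  · rw [h]
  · rfl

theorem irr_absurd (hN : NN τ) {h : Hist} (hg : Good τ h) {w : Fin 4 → ℕ} {v' m : ℕ}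
    (hw : ∀ i : Fin 4, Known h (w i) i) (hv : Known h v' (14 + m)) {p : PPat}
    (hp : ∀ i b, p i = some b → (s(w i, v'), b) ∈ h) {i : Fin 4} (hnd : w i ≠ v')
    (he : s(w i, v') ∉ edges h) (hirr : Irr p i) : False := by
  obtain ⟨q, c, hq, hc, hwh, hfin, _⟩ := exists_full_run hg (e := s(w i, v'))
    (by rw [Sym2.mk_isDiag_iff]; exact hnd) he
  obtain ⟨⟨π, x, hG⟩, hno⟩ := hN q c hq hc (by rw [hwh]; exact ⟨_, rfl⟩)
  apply hno
  refine ⟨code x, ?_⟩
  intro G' hG'
  have hag := hfin _ hG
  have hcomp := compl_of hw hv hp hag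
  classical
  set b : Bool := decide (s(w i, v') ∈ G'.edgeSet) with hb
  set P : Pat := setP (x m) i b with hP
  have hPj : ∀ j, j ≠ i → P j = x m j := by
    intro j hj
    rw [hP]; unfold setP; rw [if_neg hj]
  refine ⟨π, Function.update x m P, ?_, ?_⟩
  · ext a d
    by_cases had : s(a, d) = s(w i, v')
    · have h1 : G'.Adj a d ↔ b = true := by
        rw [hb, decide_eq_true_iff, ← had, SimpleGraph.mem_edgeSet]
      have h2 : (Tr π (Function.update x m P)).Adj a d ↔
          (Tr π (Function.update x m P)).Adj (w i) v' := by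
        rw [← SimpleGraph.mem_edgeSet, had, SimpleGraph.mem_edgeSet]
      rw [h1, h2, Tr_adj, hw i π x hag, hv π x hag, adj_Qblock, Function.update_self, hP]
      unfold setP
      rw [if_pos rfl]
    · have h1 : G'.Adj a d ↔ (Tr π x).Adj a d := by
        by_cases hd : a = d
        · subst hd; simp
        · have : ∃ n, q n = s(a, d) := by
            by_contra hcon
            push Not at hcon
            have h3 : s(a, d) ∈ white q := ⟨by rw [Sym2.mk_isDiag_iff]; exact hd, hcon⟩
            rw [hwh] at h3
            exact had h3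
          obtain ⟨n, hn⟩ := this
          rw [← SimpleGraph.mem_edgeSet, ← SimpleGraph.mem_edgeSet, ← hn,
            (mem_final hq).1 hG' n, (mem_final hq).1 hG n]
      rw [h1, Tr_adj, Tr_adj, H_upd hPj]
      intro h3
      apply had
      rw [← hw i π x hag, ← hv π x hag] at h3
      rw [Sym2.eq_iff] at h3 ⊢
      rcases h3 with h3 | h3
      · left; exact ⟨π.symm.injective h3.1, π.symm.injective h3.2⟩
      · right; exact ⟨π.symm.injective h3.1, π.symm.injective h3.2⟩
  · funext k
    unfold code
    by_cases hk : k = m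
    · subst hk
      rw [Function.update_self, hP]
      have h1 := hirr _ hcomp
      have h2 := setP_self (x k) i
      cases hb1 : b <;> cases hb2 : x k i <;> rw [hb2] at h2
      · rw [h2]
      · rw [h1, h2]
      · rw [← h1, h2]
      · rw [h2]
    · rw [Function.update_of_ne hk]

theorem avoid_run (hN : NN τ) {w : Fin 4 → ℕ} {v' m : ℕ} {t : Fin 3} (hwv : ∀ i, w i ≠ v')
    (hwinj : Function.Injective w) :
    ∀ (n : ℕ) (p : PPat) (h : Hist), Good τ h → (∀ i : Fin 4, Known h (w i) i) →
      Known h v' (14 + m) → (∀ i b, p i = some b → (s(w i, v'), b) ∈ h) →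
      (∀ i, p i = none → s(w i, v') ∉ edges h) → avoid t n p = true →
      ∃ h', Ext τ h h' ∧ (∀ e ∈ edges h', e ∈ edges h ∨ ∃ i, e = s(w i, v')) ∧
        (∀ i, s(w i, v') ∈ edges h') ∧ ∀ π x, Agr (Tr π x) h' → lab (x m) ≠ t := by
  have hfull : ∀ (p : PPat) (h : Hist), Good τ h → (∀ i : Fin 4, Known h (w i) i) →
      Known h v' (14 + m) → (∀ i b, p i = some b → (s(w i, v'), b) ∈ h) →
      Full p → lab (tot p) ≠ t →
      ∃ h', Ext τ h h' ∧ (∀ e ∈ edges h', e ∈ edges h ∨ ∃ i, e = s(w i, v')) ∧
        (∀ i, s(w i, v') ∈ edges h') ∧ ∀ π x, Agr (Tr π x) h' → lab (x m) ≠ t := by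
    intro p h hg hw hv hp hf hl
    refine ⟨h, Ext.refl _, fun e he => Or.inl he, ?_, ?_⟩
    · intro i
      obtain ⟨b, hb⟩ := Option.ne_none_iff_exists'.1 (hf i)
      unfold edges
      rw [List.mem_map]
      exact ⟨_, hp i b hb, rfl⟩
    · intro π x hag
      have h1 := compl_of hw hv hp hag
      have h2 : x m = tot p := by
        funext i
        obtain ⟨b, hb⟩ := Option.ne_none_iff_exists'.1 (hf i)
        rw [h1 i b hb]
        unfold tot
        rw [hb]; rfl
      rw [h2]; exact hl
  intro n
  induction n with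
  | zero =>
    intro p h hg hw hv hp hp' hav
    unfold avoid at hav
    rw [decide_eq_true_iff] at hav
    exact hfull p h hg hw hv hp hav.1 hav.2
  | succ n ih =>
    intro p h hg hw hv hp hp' hav
    unfold avoid at hav
    rw [decide_eq_true_iff] at hav
    rcases hav with hav | ⟨i, hi, hav⟩
    · exact hfull p h hg hw hv hp hav.1 hav.2
    · rcases hav with hav | hav
      · exact (irr_absurd hN hg hw hv hp (hwv i) (hp' i hi) hav).elim
      · have hstep : Ext τ h (h ++ [(s(w i, v'), τ h s(w i, v'))]) :=
          Ext.step (Ext.refl _) (by rw [Sym2.mk_isDiag_iff]; exact hwv i) (hp' i hi)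
        have hav' : avoid t n (fill p i (τ h s(w i, v'))) = true := by
          cases τ h s(w i, v')
          · exact hav.1
          · exact hav.2
        obtain ⟨h', h1, h2, h3, h4⟩ := ih (fill p i (τ h s(w i, v'))) _ (hg.ext hstep)
          (fun j => (hw j).mono hstep) (hv.mono hstep) (by
            intro j b hjb
            unfold fill at hjb
            rw [List.mem_append]
            split_ifs at hjb with hji
            · right
              rw [Option.some.injEq] at hjb
              rw [← hjb, hji]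
              exact List.mem_singleton_self _
            · left; exact hp j b hjb) (by
            intro j hj
            unfold fill at hj
            split_ifs at hj with hji
            unfold edges
            rw [List.map_append, List.mem_append, not_or]
            refine ⟨hp' j hj, ?_⟩
            simp only [List.map_cons, List.map_nil, List.mem_singleton]
            rw [Sym2.eq_iff]
            rintro (h5 | h5)
            · exact hji (hwinj h5.1)
            · exact hwv j h5.1) hav'
        refine ⟨h', hstep.trans h1, ?_, h3, h4⟩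
        intro e he
        rcases h2 e he with h5 | h5
        · unfold edges at h5
          rw [List.map_append, List.mem_append] at h5
          rcases h5 with h5 | h5
          · exact Or.inl h5
          · simp only [List.map_cons, List.map_nil, List.mem_singleton] at h5
            exact Or.inr ⟨i, h5⟩
        · exact Or.inr h5

end Pool.Agent.EdgeGame200
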