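import Pool.Agent.EdgeGame200.Label

/-!
# The tree of runs against a strategy of Hider
-/

namespace Pool.Agent.EdgeGame200

open Set

variable {τ : Hist → Sym2 ℕ → Bool}

/-- the state after `m` blocks -/
structure Inv (τ : Hist → Sym2 ℕ → Bool) (hD : Hist) (B : Finset ℕ) (w : Fin 4 → ℕ)
    (ew : Sym2 ℕ) (m : ℕ) (s : Hist × (ℕ → ℕ)) : Prop where
  ext : Ext τ hD s.1
  known : ∀ k, 9 ≤ k → k ≤ 13 + m → Known s.1 (s.2 k) k
  edg : ∀ b ∈ B, ∀ z, s(b, z) ∈ edges s.1 → s(b, z) ∈ edges hD ∨
    ∃ k, 9 ≤ k ∧ k ≤ 13 + m ∧ z = s.2 k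
  white : ew ∉ edges s.1
  quer : ∀ k < m, s(w 0, s.2 (14 + k)) ∈ edges s.1

/-- what one step achieves -/
structure Nxt (τ : Hist → Sym2 ℕ → Bool) (hD : Hist) (B : Finset ℕ) (w : Fin 4 → ℕ)
    (ew : Sym2 ℕ) (m : ℕ) (s : Hist × (ℕ → ℕ)) (nx : Bool → Hist × (ℕ → ℕ)) (lb : Bool → Fin 3)
    (v' : ℕ) : Prop where
  inv : ∀ b, Inv τ hD B w ew (m + 1) (nx b)
  ext : ∀ b, Ext τ s.1 (nx b).1
  known : ∀ b, Known (nx b).1 v' (14 + m)
  label : ∀ b π x, Agr (Tr π x) (nx b).1 → lab (x m) = lb b
  fresh : (∀ b ∈ B, s(b, v') ∉ edges hD) → lb false ≠ lb true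
  old : (∃ b ∈ B, s(b, v') ∈ edges hD) → nx false = nx true

theorem stepE (hN : NN τ) {hD : Hist} (hgD : Good τ hD) {B : Finset ℕ} (hBne : B.Nonempty)
    (hcD : CB hD B) {w : Fin 4 → ℕ} (hw : ∀ i : Fin 4, Known hD (w i) i) {u v0 : ℕ}
    (hu : u ∈ B) (huw : ∀ i, u ≠ w i) (m : ℕ) (s : Hist × (ℕ → ℕ))
    (hs : Inv τ hD B w s(u, v0) m s) : ∃ nx lb v', Nxt τ hD B w s(u, v0) m s nx lb v' := by
  classical
  have hg := hgD.ext hs.ext
  have hc := hcD.mono hs.ext
  obtain ⟨h1, v', e1, k1, q1⟩ := stepC hN hg hBne hc (N := 13 + m) (by omega) hs.known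
  have hg1 := hg.ext e1
  have hc1 := hc.mono e1
  have hw1 : ∀ i : Fin 4, Known h1 (w i) i := fun i => ((hw i).mono hs.ext).mono e1
  have k1' : Known h1 v' (14 + m) := by
    have : 13 + m + 1 = 14 + m := by omega
    rwa [this] at k1
  obtain ⟨π0, x0, hag0⟩ := exists_LC hN hg1
  have hwB : ∀ i, w i ∈ B := by
    intro i
    rw [hc1 π0 x0 hag0, hw1 i π0 x0 hag0]; omega
  have hv'B : v' ∉ B := by
    rw [hc1 π0 x0 hag0, k1' π0 x0 hag0]; omega
  have hvNB : s.2 (13 + m) ∉ B := by
    rw [hc1 π0 x0 hag0, (hs.known (13 + m) (by omega) le_rfl).mono e1 π0 x0 hag0]; omega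
  have hwv : ∀ i, w i ≠ v' := fun i h => hv'B (h ▸ hwB i)
  have hwinj : Function.Injective w := by
    intro i j hij
    have h2 := hw1 i π0 x0 hag0
    rw [hij, hw1 j π0 x0 hag0] at h2
    exact Fin.ext h2.symm
  -- edges of `h1` meeting `B`
  have hB1 : ∀ b ∈ B, ∀ z, s(b, z) ∈ edges h1 → s(b, z) ∈ edges s.1 := by
    intro b hb z hz
    rcases q1 _ hz with h2 | ⟨z', h2, h3⟩
    · exact h2
    · exfalso
      rw [Sym2.eq_iff] at h3
      rcases h3 with h3 | h3
      · exact hvNB (h3.1 ▸ hb)
      · exact h2 (h3.1 ▸ hb)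
  -- the invariant for extensions querying only `s(w i, v')`
  have hinv : ∀ h2 : Hist, Ext τ h1 h2 →
      (∀ e ∈ edges h2, e ∈ edges h1 ∨ ∃ i, e = s(w i, v')) → (∀ i, s(w i, v') ∈ edges h2) →
      Inv τ hD B w s(u, v0) (m + 1) (h2, fun k => if k = 14 + m then v' else s.2 k) := by
    intro h2 e2 q2 f2
    refine ⟨(hs.ext.trans e1).trans e2, ?_, ?_, ?_, ?_⟩
    · intro k hk1 hk2
      show Known h2 (if k = 14 + m then v' else s.2 k) k
      by_cases hk : k = 14 + m
      · rw [if_pos hk, hk]; exact k1'.mono e2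
      · rw [if_neg hk]; exact ((hs.known k hk1 (by omega)).mono e1).mono e2
    · intro b hb z hz
      rcases q2 _ hz with h3 | ⟨i, h3⟩
      · rcases hs.edg b hb z (hB1 b hb z h3) with h4 | ⟨k, hk1, hk2, hk3⟩
        · exact Or.inl h4
        · right
          refine ⟨k, hk1, by omega, ?_⟩
          show z = if k = 14 + m then v' else s.2 k
          rw [if_neg (by omega)]; exact hk3
      · right
        refine ⟨14 + m, by omega, by omega, ?_⟩
        show z = if 14 + m = 14 + m then v' else s.2 (14 + m)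
        rw [if_pos rfl]
        rw [Sym2.eq_iff] at h3
        rcases h3 with h3 | h3
        · exact h3.2
        · exact absurd hb (h3.1 ▸ hv'B)
    · intro he
      rcases q2 _ he with h3 | ⟨i, h3⟩
      · exact hs.white (hB1 u hu v0 h3)
      · rw [Sym2.eq_iff] at h3
        rcases h3 with h3 | h3
        · exact huw i h3.1
        · exact hv'B (h3.1 ▸ hu)
    · intro k hk
      show s(w 0, if 14 + k = 14 + m then v' else s.2 (14 + k)) ∈ edges h2
      by_cases hkm : k = m
      · rw [if_pos (by omega)]; exact f2 0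
      · rw [if_neg (by omega)]
        exact e2.edges_sub (e1.edges_sub (hs.quer k (by omega)))
  -- first extension
  obtain ⟨h2, e2, q2⟩ := exists_qlist (τ := τ) h1
    [s(w 0, v'), s(w 1, v'), s(w 2, v'), s(w 3, v')] (by
      intro e he
      simp only [List.mem_cons, List.not_mem_nil, or_false] at he
      rcases he with rfl | rfl | rfl | rfl
      all_goals
        rw [Sym2.mk_isDiag_iff]
        exact hwv _)
  have q2' : ∀ e ∈ edges h2, e ∈ edges h1 ∨ ∃ i, e = s(w i, v') := by
    intro e he
    rcases (q2 e).1 he with h3 | h3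
    · exact Or.inl h3
    · simp only [List.mem_cons, List.not_mem_nil, or_false] at h3
      rcases h3 with rfl | rfl | rfl | rfl
      · exact Or.inr ⟨0, rfl⟩
      · exact Or.inr ⟨1, rfl⟩
      · exact Or.inr ⟨2, rfl⟩
      · exact Or.inr ⟨3, rfl⟩
  have f2 : ∀ i, s(w i, v') ∈ edges h2 := by
    intro i
    rw [q2]
    right
    fin_cases i <;> simp
  obtain ⟨l2, hl2⟩ := label_known hN (hg1.ext e2) (fun i => (hw1 i).mono e2) (k1'.mono e2) f2
  by_cases hT : ∃ b ∈ B, s(b, v') ∈ edges hD
  · refine ⟨fun _ => (h2, fun k => if k = 14 + m then v' else s.2 k), fun _ => l2, v',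
      fun _ => hinv h2 e2 q2' f2, fun _ => e1.trans e2, fun _ => k1'.mono e2, fun _ => hl2, ?_,
      fun _ => rfl⟩
    intro h3
    obtain ⟨b, hb, h4⟩ := hT
    exact absurd h4 (h3 b hb)
  · -- second extension
    have hnew : ∀ i, s(w i, v') ∉ edges h1 := by
      intro i hi
      rcases hs.edg (w i) (hwB i) v' (hB1 _ (hwB i) v' hi) with h4 | ⟨k, hk1, hk2, hk3⟩
      · exact hT ⟨_, hwB i, h4⟩
      · have h5 := (hs.known k hk1 hk2).mono e1 π0 x0 hag0
        rw [← hk3, k1' π0 x0 hag0] at h5
        omega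
    obtain ⟨h3, e3, q3, f3, a3⟩ := avoid_run hN (m := m) (t := l2) hwv hwinj 4 empt h1 hg1 hw1 k1'
      (by intro i b hb; simp [empt] at hb) (fun i _ => hnew i) (avoid_empt l2)
    obtain ⟨l3, hl3⟩ := label_known hN (hg1.ext e3) (fun i => (hw1 i).mono e3) (k1'.mono e3) f3
    have hne : l2 ≠ l3 := by
      obtain ⟨π1, x1, hag1⟩ := exists_LC hN (hg1.ext e3)
      have h4 := a3 π1 x1 hag1
      rw [hl3 π1 x1 hag1] at h4
      exact fun h => h4 h.symm
    refine ⟨fun b => if b then (h3, fun k => if k = 14 + m then v' else s.2 k)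
      else (h2, fun k => if k = 14 + m then v' else s.2 k), fun b => if b then l3 else l2, v',
      ?_, ?_, ?_, ?_, ?_, ?_⟩
    · intro b
      cases b
      · exact hinv h2 e2 q2' f2
      · exact hinv h3 e3 q3 f3
    · intro b
      cases b
      · exact e1.trans e2
      · exact e1.trans e3
    · intro b
      cases b
      · exact k1'.mono e2
      · exact k1'.mono e3
    · intro b
      cases b
      · exact hl2
      · exact hl3
    · intro _
      simpa using hne
    · intro h4
      exact absurd h4 hT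

theorem hider_main (hN : NN τ) : ∃ Φ : (ℕ → Bool) → (ℕ → Fin 3),
    (∀ y y', Φ y = Φ y' → {m | y m ≠ y' m}.Finite) ∧
    ∀ y, ∃ q c, Legal q ∧ (∀ n, c n = τ (hist q c n) (q n)) ∧ (white q).Nonempty ∧
      ∀ π x, Tr π x ∈ final q c → code x = Φ y := by
  classical
  obtain ⟨hD, B, vD, w, hgD, hBc, hcD, hvD, hwD⟩ := stepD hN
  have hBne : B.Nonempty := by rw [← Finset.card_pos]; omega
  obtain ⟨u, hu, huw⟩ : ∃ u ∈ B, ∀ i, u ≠ w i := by
    have h1 : (Finset.univ.image w).card < B.card := by
      have := Finset.card_image_le (s := (Finset.univ : Finset (Fin 4))) (f := w)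
      simp only [Finset.card_univ, Fintype.card_fin] at this
      omega
    obtain ⟨u, hu1, hu2⟩ := Finset.exists_mem_notMem_of_card_lt_card h1
    refine ⟨u, hu1, fun i hi => hu2 ?_⟩
    rw [hi]
    exact Finset.mem_image_of_mem _ (Finset.mem_univ _)
  obtain ⟨v0, _, hv0u, hv0⟩ := exists_fresh hD u B
  have hinv0 : Inv τ hD B w s(u, v0) 0 (hD, vD) :=
    ⟨Ext.refl _, hvD, fun b _ z hz => Or.inl hz, hv0, fun k hk => absurd hk (by omega)⟩
  choose! nx lb nv hnx using stepE hN hgD hBne hcD hwD (v0 := v0) hu huw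
  -- the states
  let st : (ℕ → Bool) → ℕ → Hist × (ℕ → ℕ) := fun y n =>
    Nat.rec (hD, vD) (fun m s => nx m s (y m)) n
  have hst0 : ∀ y, st y 0 = (hD, vD) := fun y => rfl
  have hst1 : ∀ y m, st y (m + 1) = nx m (st y m) (y m) := fun y m => rfl
  have hinv : ∀ y m, Inv τ hD B w s(u, v0) m (st y m) := by
    intro y m
    induction m with
    | zero => exact hinv0
    | succ m ih => rw [hst1]; exact (hnx m _ ih).inv _
  have hN' : ∀ y m, Nxt τ hD B w s(u, v0) m (st y m) (nx m (st y m)) (lb m (st y m))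
      (nv m (st y m)) := fun y m => hnx m _ (hinv y m)
  have hext : ∀ y m, Ext τ (st y m).1 (st y (m + 1)).1 := by
    intro y m
    rw [hst1]; exact (hN' y m).ext _
  have hlen : ∀ y L, ∃ n, L ≤ (st y n).1.length := by
    intro y L
    refine ⟨L, ?_⟩
    obtain ⟨π, x, hag⟩ := exists_LC hN (hgD.ext (hinv y L).ext)
    have h1 : ((Finset.range L).image (fun k => s(w 0, (st y L).2 (14 + k)))).card = L := by
      rw [Finset.card_image_of_injOn, Finset.card_range]
      intro a ha b hb hab
      rw [Finset.mem_coe, Finset.mem_range] at ha hb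
      have h2 := (hinv y L).known (14 + a) (by omega) (by omega) π x hag
      have h3 := (hinv y L).known (14 + b) (by omega) (by omega) π x hag
      have h4 : (st y L).2 (14 + a) = (st y L).2 (14 + b) := by
        simp only [Sym2.eq_iff] at hab
        rcases hab with hab | hab
        · exact hab.2
        · exact hab.2.trans hab.1
      rw [h4, h3] at h2
      omega
    have h2 : (Finset.range L).image (fun k => s(w 0, (st y L).2 (14 + k))) ⊆
        (edges (st y L).1).toFinset := by
      intro e he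
      rw [Finset.mem_image] at he
      obtain ⟨k, hk, rfl⟩ := he
      rw [List.mem_toFinset]
      exact (hinv y L).quer k (Finset.mem_range.1 hk)
    have h3 := Finset.card_le_card h2
    have h4 := List.toFinset_card_le (edges (st y L).1)
    simp only [edges, List.length_map] at h4 h3
    omega
  have hrun : ∀ y, ∃ q c, Legal q ∧ (∀ n, c n = τ (hist q c n) (q n)) ∧
      ∀ n, (st y n).1 = hist q c (st y n).1.length := fun y =>
    run_of_chain (fun n => (st y n).1) hgD (hext y) (hlen y)
  have hwhite : ∀ y q c, Legal q → (∀ n, (st y n).1 = hist q c (st y n).1.length) →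
      (white q).Nonempty := by
    intro y q c _ hh
    refine ⟨s(u, v0), by rw [Sym2.mk_isDiag_iff]; exact fun h => hv0u h.symm, ?_⟩
    intro n hn
    obtain ⟨k, hk⟩ := hlen y (n + 1)
    apply (hinv y k).white
    rw [hh k, ← hn]
    simp only [edges, hist, List.map_map, List.mem_map, List.mem_range, Function.comp]
    exact ⟨n, by omega, rfl⟩
  refine ⟨fun y m => lb m (st y m) (y m), ?_, ?_⟩
  · intro y y' hyy
    have hsame : ∀ m, st y m = st y' m := by
      intro m
      induction m with
      | zero => rfl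
      | succ m ih =>
        rw [hst1, hst1, ← ih]
        by_cases hf : ∃ b ∈ B, s(b, nv m (st y m)) ∈ edges hD
        · have h1 := (hN' y m).old hf
          cases y m <;> cases y' m
          · rfl
          · exact h1
          · exact h1.symm
          · rfl
        · push Not at hf
          have h1 := (hN' y m).fresh hf
          have h2 : lb m (st y m) (y m) = lb m (st y' m) (y' m) := congrFun hyy m
          rw [← ih] at h2
          have h3 : y m = y' m := by
            cases h4 : y m <;> cases h5 : y' m <;> rw [h4, h5] at h2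
            · exact absurd h2 h1
            · exact absurd h2.symm h1
          rw [h3]
    -- differences occur only at old vertices
    have hdiff : ∀ m, y m ≠ y' m → ∃ b ∈ B, s(b, nv m (st y m)) ∈ edges hD := by
      intro m hm
      by_contra hf
      push Not at hf
      have h1 := (hN' y m).fresh hf
      have h2 : lb m (st y m) (y m) = lb m (st y' m) (y' m) := congrFun hyy m
      rw [← hsame m] at h2
      apply hm
      cases h4 : y m <;> cases h5 : y' m <;> rw [h4, h5] at h2
      · exact absurd h2 h1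
      · exact absurd h2.symm h1
    obtain ⟨q, c, hq, hc, hh⟩ := hrun y
    obtain ⟨⟨π, x, hG⟩, _⟩ := hN q c hq hc (hwhite y q c hq hh)
    have hag : ∀ n, Agr (Tr π x) (st y n).1 := by
      intro n
      rw [hh n]
      exact agr_of_final hq hG _
    have hrole : ∀ m, π.symm (nv m (st y m)) = 14 + m := by
      intro m
      have h1 := hag (m + 1)
      rw [hst1] at h1
      exact (hN' y m).known (y m) π x h1
    have hTfin : {z : ℕ | ∃ b ∈ B, s(b, z) ∈ edges hD}.Finite := by
      have h1 : {z : ℕ | ∃ b ∈ B, s(b, z) ∈ edges hD} =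
          ⋃ b ∈ B, {z : ℕ | s(b, z) ∈ edges hD} := by
        ext z; simp
      rw [h1]
      apply Set.Finite.biUnion B.finite_toSet
      intro b _
      apply (List.finite_toSet (edges hD)).preimage (f := fun v => s(b, v))
      intro v _ v' _ hvv
      simp only [Sym2.eq_iff] at hvv
      omega
    refine (Set.Finite.preimage (f := fun m => nv m (st y m)) ?_ hTfin).subset ?_
    · intro a _ b _ hab
      have h1 := hrole a
      have h2 := hrole b
      simp only at hab
      rw [hab, h2] at h1
      omega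
    · intro m hm
      exact hdiff m hm
  · intro y
    obtain ⟨q, c, hq, hc, hh⟩ := hrun y
    refine ⟨q, c, hq, hc, hwhite y q c hq hh, ?_⟩
    intro π x hG
    funext m
    have hag : Agr (Tr π x) (st y (m + 1)).1 := by
      rw [hh (m + 1)]
      exact agr_of_final hq hG _
    rw [hst1] at hag
    exact (hN' y m).label (y m) π x hag

end Pool.Agent.EdgeGame200
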