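import Pool.Agent.EdgeGame200.Seeker
import Pool.Agent.EdgeGame200.Tree
import Pool.Agent.TreeGame200.Bernstein

/-!
# The undetermined graph property
-/

namespace Pool.Agent.EdgeGame200

open Set

/-- the class modulo finite changes -/
def cls (κ : ℕ → Fin 3) : Set (ℕ → Fin 3) := {κ' | {m | κ' m ≠ κ m}.Finite}

theorem mem_cls_self (κ : ℕ → Fin 3) : κ ∈ cls κ := by
  unfold cls
  simp

theorem cls_eq {κ κ' : ℕ → Fin 3} (h : {m | κ m ≠ κ' m}.Finite) : cls κ = cls κ' := by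
  ext l
  unfold cls
  simp only [mem_ofPred_eq]
  constructor
  · intro h1
    refine (h.union h1).subset ?_
    intro m hm
    by_cases h2 : l m = κ m
    · left
      show κ m ≠ κ' m
      rw [← h2]; exact hm
    · right; exact h2
  · intro h1
    refine (h.union h1).subset ?_
    intro m hm
    by_cases h2 : l m = κ' m
    · left
      show κ m ≠ κ' m
      rw [← h2]; exact fun h3 => hm h3.symm
    · right; exact h2

theorem countable_near {A : Type} [Finite A] (y0 : ℕ → A) :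
    {y : ℕ → A | {m | y m ≠ y0 m}.Finite}.Countable := by
  have h1 : {y : ℕ → A | {m | y m ≠ y0 m}.Finite} ⊆ ⋃ N : ℕ, {y : ℕ → A | ∀ m ≥ N, y m = y0 m} := by
    intro y hy
    simp only [mem_ofPred_eq] at hy
    obtain ⟨N, hN⟩ := hy.bddAbove
    rw [mem_iUnion]
    refine ⟨N + 1, ?_⟩
    intro m hm
    by_contra hne
    have := hN (show m ∈ {m | y m ≠ y0 m} from hne)
    omega
  refine Set.Countable.mono h1 (countable_iUnion ?_)
  intro N
  apply Set.Finite.countable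
  refine Set.Finite.of_finite_image (f := fun y : ℕ → A => fun i : Fin N => y i) (toFinite _) ?_
  intro y hy y' hy' hyy
  funext m
  by_cases hm : m < N
  · exact congrFun hyy ⟨m, hm⟩
  · rw [hy m (by omega), hy' m (by omega)]

theorem mk_range_cls (Φ : (ℕ → Bool) → (ℕ → Fin 3))
    (hΦ : ∀ y y', Φ y = Φ y' → {m | y m ≠ y' m}.Finite) :
    Cardinal.continuum ≤ Cardinal.mk (range (fun y => cls (Φ y))) := by
  by_contra hcon
  rw [not_le] at hcon
  have hfib : ∀ κ : ℕ → Fin 3, {y | Φ y = κ}.Countable := by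
    intro κ
    by_cases h : ∃ y0, Φ y0 = κ
    · obtain ⟨y0, h0⟩ := h
      refine (countable_near y0).mono ?_
      intro y hy
      exact hΦ y y0 (hy.trans h0.symm)
    · have : {y | Φ y = κ} = ∅ := by
        ext y
        simp only [mem_ofPred_eq, mem_empty_iff_false, iff_false]
        exact fun hy => h ⟨y, hy⟩
      rw [this]; exact countable_empty
  have h1 : Cardinal.mk (ℕ → Bool) ≤ Cardinal.mk (range (fun y => cls (Φ y))) * Cardinal.aleph0 := by
    apply Cardinal.mk_le_mk_mul_of_mk_preimage_le (rangeFactorization (fun y => cls (Φ y)))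
    rintro ⟨K, hK⟩
    apply Cardinal.le_aleph0_iff_set_countable.2
    obtain ⟨y0, hy0⟩ := hK
    have hsub : (rangeFactorization (fun y => cls (Φ y))) ⁻¹' {⟨K, y0, hy0⟩} ⊆
        ⋃ κ ∈ {κ : ℕ → Fin 3 | {m | κ m ≠ Φ y0 m}.Finite}, {y | Φ y = κ} := by
      intro y hy
      have h2 : cls (Φ y) = K := congrArg Subtype.val hy
      have h3 : Φ y ∈ cls (Φ y0) := by
        have h4 : cls (Φ y0) = K := hy0
        rw [h4, ← h2]; exact mem_cls_self _
      rw [mem_iUnion₂]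
      exact ⟨Φ y, h3, rfl⟩
    refine Set.Countable.mono hsub ((countable_near (Φ y0)).biUnion ?_)
    intro κ _
    exact hfib κ
  have h2 : Cardinal.mk (ℕ → Bool) = Cardinal.continuum := by simp
  rw [h2] at h1
  exact absurd h1 (not_le.2 (Cardinal.mul_lt_of_lt Cardinal.aleph0_le_continuum hcon
    Cardinal.aleph0_lt_continuum))

theorem mk_strat {X : Type} [Countable X] [Nonempty X] :
    Cardinal.mk (Hist → X) ≤ Cardinal.continuum := by
  have h1 : Cardinal.mk (Hist → X) ≤ Cardinal.mk (Hist → ℕ) := by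
    obtain ⟨f, hf⟩ := exists_injective_nat X
    exact Cardinal.mk_le_of_injective (f := fun g h => f (g h))
      (fun g g' hgg => funext fun h => hf (congrFun hgg h))
  refine h1.trans ?_
  have : Cardinal.mk (Hist → ℕ) = Cardinal.aleph0 ^ Cardinal.mk Hist := by
    rw [← Cardinal.power_def]; simp
  rw [this]
  have h2 : Cardinal.mk Hist ≤ Cardinal.aleph0 := Cardinal.mk_le_aleph0
  calc Cardinal.aleph0 ^ Cardinal.mk Hist ≤ Cardinal.aleph0 ^ Cardinal.aleph0 :=
        Cardinal.power_le_power_left Cardinal.aleph0_ne_zero h2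
    _ = Cardinal.continuum := Cardinal.aleph0_power_aleph0

theorem mk_strat2 : Cardinal.mk (Hist → Sym2 ℕ → Bool) ≤ Cardinal.continuum := by
  have h1 : Cardinal.mk (Hist → Sym2 ℕ → Bool) = Cardinal.mk (Hist × Sym2 ℕ → Bool) :=
    Cardinal.mk_congr (Equiv.curry _ _ _).symm
  rw [h1]
  have h2 : Cardinal.mk (Hist × Sym2 ℕ → Bool) = 2 ^ Cardinal.mk (Hist × Sym2 ℕ) := by
    rw [← Cardinal.mk_bool, Cardinal.power_def]
  rw [h2, ← Cardinal.two_power_aleph0]
  exact Cardinal.power_le_power_left two_ne_zero Cardinal.mk_le_aleph0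

theorem iso_inv (C : Set (ℕ → Fin 3)) {G G' : SimpleGraph ℕ} (h : Nonempty (G ≃g G'))
    (hG : G ∈ SS C) : G' ∈ SS C := by
  obtain ⟨φ⟩ := h
  obtain ⟨π, x, rfl, hx⟩ := hG
  refine ⟨π.trans φ.toEquiv, x, ?_, hx⟩
  ext a b
  have h1 := φ.map_rel_iff (a := φ.toEquiv.symm a) (b := φ.toEquiv.symm b)
  have h2 : ∀ z, φ (φ.toEquiv.symm z) = z := fun z => φ.toEquiv.apply_symm_apply z
  rw [h2, h2] at h1
  rw [h1, Tr_adj, Tr_adj]
  rfl

theorem main : ∃ C : Set (ℕ → Fin 3), ¬ SeekerHasWinningStrategy (SS C) ∧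
    ¬ HiderHasWinningStrategy (SS C) := by
  classical
  let A := {σ : Hist → Sym2 ℕ // ∀ q c, (∀ n, q n = σ (hist q c n)) → Legal q}
  let D := {τ : Hist → Sym2 ℕ → Bool // NN τ}
  have hA : ∀ σ : A, ∃ Φ : (ℕ → Bool) → (ℕ → Fin 3), Function.Injective Φ ∧
      ∀ y, ∃ q c, (∀ n, q n = σ.1 (hist q c n)) ∧ ∀ C : Set (ℕ → Fin 3), Φ y ∈ C →
        (∀ κ ∈ C, {m | κ m ≠ Φ y m}.Finite → κ = Φ y) → ¬ SeekerWinsRun (SS C) q c :=
    fun σ => seeker_main σ.2
  have hD : ∀ τ : D, ∃ Φ : (ℕ → Bool) → (ℕ → Fin 3),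
      (∀ y y', Φ y = Φ y' → {m | y m ≠ y' m}.Finite) ∧
      ∀ y, ∃ q c, Legal q ∧ (∀ n, c n = τ.1 (hist q c n) (q n)) ∧ (white q).Nonempty ∧
        ∀ π x, Tr π x ∈ final q c → code x = Φ y := fun τ => hider_main τ.2
  choose ΦA hA1 hA2 using hA
  choose ΦD hD1 hD2 using hD
  let F : A ⊕ D → Set (Set (ℕ → Fin 3)) := fun i => match i with
    | Sum.inl σ => range (fun y => cls (ΦA σ y))
    | Sum.inr τ => range (fun y => cls (ΦD τ y))
  have hcard : Cardinal.mk (A ⊕ D) ≤ Cardinal.continuum := by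
    rw [Cardinal.mk_sum, Cardinal.lift_id, Cardinal.lift_id]
    have h1 : Cardinal.mk A ≤ Cardinal.continuum :=
      (Cardinal.mk_subtype_le _).trans mk_strat
    have h2 : Cardinal.mk D ≤ Cardinal.continuum :=
      (Cardinal.mk_subtype_le _).trans mk_strat2
    calc Cardinal.mk A + Cardinal.mk D ≤ Cardinal.continuum + Cardinal.continuum :=
          add_le_add h1 h2
      _ = Cardinal.continuum := Cardinal.continuum_add_self
  obtain ⟨f, hf1, hf2⟩ := TreeGame200.exists_injective_choice F (by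
    intro i
    refine hcard.trans ?_
    rcases i with σ | τ
    · exact mk_range_cls _ (fun y y' h => by rw [hA1 σ h]; simp)
    · exact mk_range_cls _ (hD1 τ))
  have hfA : ∀ σ : A, ∃ y, cls (ΦA σ y) = f (Sum.inl σ) := fun σ => hf2 (Sum.inl σ)
  have hfD : ∀ τ : D, ∃ y, cls (ΦD τ y) = f (Sum.inr τ) := fun τ => hf2 (Sum.inr τ)
  choose yA hyA using hfA
  choose yD hyD using hfD
  refine ⟨{κ | ∃ σ : A, κ = ΦA σ (yA σ)}, ?_, ?_⟩
  · rintro ⟨σ, hσ⟩
    obtain ⟨q, c, h1, h2⟩ := hA2 ⟨σ, fun q c h => (hσ q c h).1⟩ (yA ⟨σ, fun q c h => (hσ q c h).1⟩)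
    refine h2 {κ | ∃ σ : A, κ = ΦA σ (yA σ)} ⟨_, rfl⟩ ?_ (hσ q c h1).2
    rintro κ ⟨σ', rfl⟩ hfin
    have h3 := cls_eq hfin
    rw [hyA, hyA] at h3
    have h4 := hf1 h3
    rw [Sum.inl.injEq] at h4
    rw [h4]
  · rintro ⟨τ, hτ⟩
    obtain ⟨q, c, hq, hc, hw, hcode⟩ := hD2 ⟨τ, NN_of_win hτ⟩ (yD ⟨τ, NN_of_win hτ⟩)
    refine hτ q c hq hc ⟨hw, Or.inr ?_⟩
    rw [eq_empty_iff_forall_notMem]
    rintro G ⟨hG1, π, x, rfl, σ, hx⟩
    have h3 := hcode π x hG1
    rw [hx] at h3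
    have h4 := congrArg cls h3
    rw [hyA, hyD] at h4
    have h5 := hf1 h4
    cases h5

end Pool.Agent.EdgeGame200
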