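import Pool.Agent.EdgeGame200.Hider

/-!
# Hider against a strategy of Seeker
-/

namespace Pool.Agent.EdgeGame200

open Set

theorem blk_inj {i i' : Fin 4} {m m' : ℕ} (h : s((i : ℕ), 14 + m) = s((i' : ℕ), 14 + m')) :
    i = i' ∧ m = m' := by
  rw [Sym2.eq_iff] at h
  rcases h with h | h
  · exact ⟨Fin.ext h.1, by omega⟩
  · omega

/-- the answered part of the block `m` -/
noncomputable def pat (h : Hist) (m : ℕ) : PPat := fun i =>
  open Classical in
  if (s((i : ℕ), 14 + m), true) ∈ h then some true
  else if (s((i : ℕ), 14 + m), false) ∈ h then some false else none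

/-- a safe answer -/
noncomputable def cb (p : PPat) (i : Fin 4) : Bool :=
  open Classical in if lost 4 (fill p i false) = false then false else true

theorem cb_spec {p : PPat} {i : Fin 4} (h : lost 4 p = false) (hi : p i = none) :
    lost 4 (fill p i (cb p i)) = false := by
  unfold cb
  split_ifs with h1
  · exact h1
  · obtain ⟨b, hb⟩ := lost_step p h i hi
    cases b
    · exact absurd hb h1
    · exact hb

open Classical in
/-- Hider's replies -/
noncomputable def rep (y : ℕ → Bool) (h : Hist) (e : Sym2 ℕ) : Bool :=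
  if hb : ∃ p : Fin 4 × ℕ, e = s((p.1 : ℕ), 14 + p.2) then
    if Full (fill (pat h hb.choose.2) hb.choose.1 true) then y hb.choose.2
    else cb (pat h hb.choose.2) hb.choose.1
  else @decide (e ∈ (H (fun _ _ => false)).edgeSet) (Classical.propDecidable _)

theorem rep_block (y : ℕ → Bool) (h : Hist) (i : Fin 4) (m : ℕ) :
    rep y h s((i : ℕ), 14 + m) = if Full (fill (pat h m) i true) then y m else cb (pat h m) i := by
  unfold rep
  have hb : ∃ p : Fin 4 × ℕ, s((i : ℕ), 14 + m) = s((p.1 : ℕ), 14 + p.2) := ⟨(i, m), rfl⟩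
  rw [dif_pos hb]
  obtain ⟨h1, h2⟩ := blk_inj hb.choose_spec
  rw [← h1, ← h2]

theorem rep_nonblock (y : ℕ → Bool) (h : Hist) {e : Sym2 ℕ} (he : ¬ IsBlock e) :
    rep y h e = true ↔ e ∈ (H (fun _ _ => false)).edgeSet := by
  unfold rep
  rw [dif_neg]
  · exact @decide_eq_true_iff _ (Classical.propDecidable _)
  · rintro ⟨p, hp⟩
    exact he ⟨p.1, p.2, hp⟩

/-- the run in which Seeker follows `σ` and Hider replies by `r` -/
def runH (σ : Hist → Sym2 ℕ) (r : Hist → Sym2 ℕ → Bool) : ℕ → Hist
  | 0 => []
  | n + 1 => runH σ r n ++ [(σ (runH σ r n), r (runH σ r n) (σ (runH σ r n)))]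

/-- queries of this run -/
def qq (σ : Hist → Sym2 ℕ) (r : Hist → Sym2 ℕ → Bool) (n : ℕ) : Sym2 ℕ := σ (runH σ r n)

/-- answers of this run -/
def cc (σ : Hist → Sym2 ℕ) (r : Hist → Sym2 ℕ → Bool) (n : ℕ) : Bool :=
  r (runH σ r n) (σ (runH σ r n))

theorem runH_eq (σ : Hist → Sym2 ℕ) (r : Hist → Sym2 ℕ → Bool) (n : ℕ) :
    runH σ r n = hist (qq σ r) (cc σ r) n := by
  induction n with
  | zero => rfl
  | succ n ih =>
    rw [runH]
    unfold hist at ih ⊢
    rw [List.range_succ, List.map_append, ← ih]
    rfl

theorem mem_hist {q : ℕ → Sym2 ℕ} {c : ℕ → Bool} {n : ℕ} {e : Sym2 ℕ} {b : Bool} :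
    (e, b) ∈ hist q c n ↔ ∃ k < n, q k = e ∧ c k = b := by
  unfold hist
  rw [List.mem_map]
  constructor
  · rintro ⟨k, hk, h⟩
    obtain ⟨h1, h2⟩ := Prod.mk.inj h
    exact ⟨k, List.mem_range.1 hk, h1, h2⟩
  · rintro ⟨k, hk, h1, h2⟩
    exact ⟨k, List.mem_range.2 hk, by rw [h1, h2]⟩

theorem pat_some {q : ℕ → Sym2 ℕ} {c : ℕ → Bool} (hq : Legal q) {n m : ℕ} {i : Fin 4} {b : Bool} :
    pat (hist q c n) m i = some b ↔ ∃ k < n, q k = s((i : ℕ), 14 + m) ∧ c k = b := by
  unfold pat
  split_ifs with h1 h2
  · rw [mem_hist] at h1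
    constructor
    · intro h
      rw [Option.some.injEq] at h
      rw [← h]; exact h1
    · rintro ⟨k, _, hk2, hk3⟩
      obtain ⟨k', _, hk2', hk3'⟩ := h1
      rw [← hk3, hq.inj (hk2.trans hk2'.symm), hk3']
  · rw [mem_hist] at h2
    constructor
    · intro h
      rw [Option.some.injEq] at h
      rw [← h]; exact h2
    · rintro ⟨k, _, hk2, hk3⟩
      obtain ⟨k', _, hk2', hk3'⟩ := h2
      rw [← hk3, hq.inj (hk2.trans hk2'.symm), hk3']
  · rw [mem_hist] at h1 h2
    constructor
    · intro h; cases h
    · intro h
      cases b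
      · exact absurd h h2
      · exact absurd h h1

/-- the limit of the answered part of the block `m` -/
noncomputable def lp (q : ℕ → Sym2 ℕ) (c : ℕ → Bool) (m : ℕ) : PPat := fun i =>
  open Classical in
  if h : ∃ k, q k = s((i : ℕ), 14 + m) then some (c h.choose) else none

theorem lp_some {q : ℕ → Sym2 ℕ} {c : ℕ → Bool} (hq : Legal q) {m : ℕ} {i : Fin 4} {b : Bool} :
    lp q c m i = some b ↔ ∃ k, q k = s((i : ℕ), 14 + m) ∧ c k = b := by
  unfold lp
  split_ifs with h1
  · rw [Option.some.injEq]
    constructor
    · intro h; exact ⟨_, h1.choose_spec, h⟩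
    · rintro ⟨k, hk1, hk2⟩
      rw [← hk2, hq.inj (h1.choose_spec.trans hk1.symm)]
  · constructor
    · intro h; cases h
    · rintro ⟨k, hk1, _⟩
      exact absurd ⟨k, hk1⟩ h1

theorem lp_none {q : ℕ → Sym2 ℕ} {c : ℕ → Bool} {m : ℕ} {i : Fin 4} :
    lp q c m i = none ↔ ∀ k, q k ≠ s((i : ℕ), 14 + m) := by
  unfold lp
  split_ifs with h1
  · constructor
    · intro h; cases h
    · intro h
      obtain ⟨k, hk⟩ := h1
      exact absurd hk (h k)
  · constructor
    · intro _ k hk; exact h1 ⟨k, hk⟩
    · intro _; rfl

theorem lp_eq_pat {q : ℕ → Sym2 ℕ} {c : ℕ → Bool} (hq : Legal q) (m : ℕ) :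
    ∃ N, lp q c m = pat (hist q c N) m := by
  have h1 : ∀ i : Fin 4, ∃ N, ∀ k, q k = s((i : ℕ), 14 + m) → k < N := by
    intro i
    by_cases h : ∃ k, q k = s((i : ℕ), 14 + m)
    · obtain ⟨k, hk⟩ := h
      refine ⟨k + 1, fun k' hk' => ?_⟩
      rw [hq.inj (hk'.trans hk.symm)]; omega
    · exact ⟨0, fun k hk => absurd ⟨k, hk⟩ h⟩
  choose N hN using h1
  refine ⟨Finset.univ.sup N, ?_⟩
  funext i
  apply Option.ext
  intro b
  show lp q c m i = some b ↔ pat (hist q c (Finset.univ.sup N)) m i = some b
  rw [lp_some hq, pat_some hq]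
  constructor
  · rintro ⟨k, hk1, hk2⟩
    exact ⟨k, (hN i k hk1).trans_le (Finset.le_sup (Finset.mem_univ i)), hk1, hk2⟩
  · rintro ⟨k, _, hk1, hk2⟩
    exact ⟨k, hk1, hk2⟩

theorem pat_succ {q : ℕ → Sym2 ℕ} {c : ℕ → Bool} (hq : Legal q) {n m : ℕ} {i : Fin 4}
    (hn : q n = s((i : ℕ), 14 + m)) :
    pat (hist q c (n + 1)) m = fill (pat (hist q c n) m) i (c n) := by
  funext j
  apply Option.ext
  intro b
  show pat (hist q c (n + 1)) m j = some b ↔ fill (pat (hist q c n) m) i (c n) j = some b
  unfold fill
  rw [pat_some hq]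
  split_ifs with hji
  · subst hji
    rw [Option.some.injEq]
    constructor
    · rintro ⟨k, hk1, hk2, hk3⟩
      rw [← hk3, hq.inj (hk2.trans hn.symm)]
    · intro h; exact ⟨n, by omega, hn, h⟩
  · rw [pat_some hq]
    constructor
    · rintro ⟨k, hk1, hk2, hk3⟩
      rcases Nat.lt_succ_iff_lt_or_eq.1 hk1 with h | h
      · exact ⟨k, h, hk2, hk3⟩
      · subst h
        exact absurd (blk_inj (hk2.symm.trans hn)).1 hji
    · rintro ⟨k, hk1, hk2, hk3⟩
      exact ⟨k, by omega, hk2, hk3⟩

theorem pat_succ_ne {q : ℕ → Sym2 ℕ} {c : ℕ → Bool} (hq : Legal q) {n m : ℕ}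
    (hn : ∀ i : Fin 4, q n ≠ s((i : ℕ), 14 + m)) :
    pat (hist q c (n + 1)) m = pat (hist q c n) m := by
  funext j
  apply Option.ext
  intro b
  show pat (hist q c (n + 1)) m j = some b ↔ pat (hist q c n) m j = some b
  rw [pat_some hq, pat_some hq]
  constructor
  · rintro ⟨k, hk1, hk2, hk3⟩
    rcases Nat.lt_succ_iff_lt_or_eq.1 hk1 with h | h
    · exact ⟨k, h, hk2, hk3⟩
    · subst h
      exact absurd hk2 (hn j)
  · rintro ⟨k, hk1, hk2, hk3⟩
    exact ⟨k, by omega, hk2, hk3⟩

theorem exists_comp : ∃ comp : PPat → Bool → Pat, ∀ p, (∀ b, Compl p (comp p b)) ∧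
    (lost 4 p = false → ¬ Full p → lab (comp p false) ≠ lab (comp p true)) := by
  have h : ∀ p : PPat, ∃ f : Bool → Pat, (∀ b, Compl p (f b)) ∧
      (lost 4 p = false → ¬ Full p → lab (f false) ≠ lab (f true)) := by
    intro p
    by_cases hp : lost 4 p = false ∧ ¬ Full p
    · obtain ⟨hp1, hp2⟩ := hp
      unfold Full at hp2
      push Not at hp2
      obtain ⟨i, hi⟩ := hp2
      obtain ⟨x, hx1, hx2⟩ := lost_rel p hp1 i hi
      refine ⟨fun b => setP x i b, ?_, fun _ _ => hx2⟩
      intro b j b' hj
      show setP x i b j = b'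
      unfold setP
      split_ifs with hji
      · rw [hji, hi] at hj; cases hj
      · exact hx1 j b' hj
    · refine ⟨fun _ => tot p, ?_, fun h1 h2 => absurd ⟨h1, h2⟩ hp⟩
      intro b j b' hj
      show tot p j = b'
      unfold tot
      rw [hj]; rfl
  choose comp hcomp using h
  exact ⟨comp, hcomp⟩

section run

variable {σ : Hist → Sym2 ℕ}

theorem cc_eq (r : Hist → Sym2 ℕ → Bool) (n : ℕ) :
    cc σ r n = r (hist (qq σ r) (cc σ r) n) (qq σ r n) := by
  rw [← runH_eq]; rfl

theorem not_lost (y : ℕ → Bool) (hq : Legal (qq σ (rep y))) (n m : ℕ) :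
    lost 4 (pat (hist (qq σ (rep y)) (cc σ (rep y)) n) m) = false := by
  induction n with
  | zero =>
    have : pat (hist (qq σ (rep y)) (cc σ (rep y)) 0) m = empt := by
      funext i
      unfold pat hist empt
      simp
    rw [this]; exact lost_empt
  | succ n ih =>
    by_cases h : ∃ i : Fin 4, qq σ (rep y) n = s((i : ℕ), 14 + m)
    · obtain ⟨i, hi⟩ := h
      rw [pat_succ hq hi, cc_eq, hi, rep_block]
      have hnone : pat (hist (qq σ (rep y)) (cc σ (rep y)) n) m i = none := by
        rw [Option.eq_none_iff_forall_ne_some]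
        intro b hb
        rw [pat_some hq] at hb
        obtain ⟨k, hk1, hk2, _⟩ := hb
        have := hq.inj (hk2.trans hi.symm)
        omega
      split_ifs with hf
      · apply lost_full
        intro j
        have := hf j
        unfold fill at this ⊢
        split_ifs at this ⊢ with hji
        · simp
        · exact this
      · exact cb_spec ih hnone
    · push Not at h
      rw [pat_succ_ne hq h]; exact ih

theorem not_lost_lp (y : ℕ → Bool) (hq : Legal (qq σ (rep y))) (m : ℕ) :
    lost 4 (lp (qq σ (rep y)) (cc σ (rep y)) m) = false := by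
  obtain ⟨N, hN⟩ := lp_eq_pat (c := cc σ (rep y)) hq m
  rw [hN]; exact not_lost y hq N m

theorem H_mem_final (y : ℕ → Bool) (hq : Legal (qq σ (rep y))) {x : ℕ → Pat}
    (hx : ∀ m, Compl (lp (qq σ (rep y)) (cc σ (rep y)) m) (x m)) :
    H x ∈ final (qq σ (rep y)) (cc σ (rep y)) := by
  rw [mem_final hq]
  intro n
  by_cases hb : IsBlock (qq σ (rep y) n)
  · obtain ⟨i, m, him⟩ := hb
    rw [him, SimpleGraph.mem_edgeSet, adj_Qblock, hx m i (cc σ (rep y) n) ((lp_some hq).2 ⟨n, him, rfl⟩)]
  · rw [cc_eq, rep_nonblock _ _ hb]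
    revert hb
    induction qq σ (rep y) n with
    | _ a b =>
      intro hb
      rw [SimpleGraph.mem_edgeSet, SimpleGraph.mem_edgeSet]
      exact adj_nonblock hb

theorem full_last {q : ℕ → Sym2 ℕ} {c : ℕ → Bool} (hq : Legal q) {m : ℕ} (hf : Full (lp q c m)) :
    ∃ n, ∃ i : Fin 4, q n = s((i : ℕ), 14 + m) ∧ Full (fill (pat (hist q c n) m) i true) := by
  have h1 : ∀ i : Fin 4, ∃ k, q k = s((i : ℕ), 14 + m) := by
    intro i
    by_contra hcon
    push Not at hcon
    exact hf i (lp_none.2 hcon)
  choose k hk using h1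
  obtain ⟨i, hi⟩ := Finite.exists_max k
  refine ⟨k i, i, hk i, ?_⟩
  intro j
  unfold fill
  split_ifs with hji
  · simp
  · have hlt : k j < k i := by
      rcases Nat.lt_or_ge (k j) (k i) with h | h
      · exact h
      · exfalso
        have h2 : k j = k i := le_antisymm (hi j) h
        have h3 := hk j
        rw [h2, hk i] at h3
        exact hji (blk_inj h3).1.symm
    have h4 : pat (hist q c (k i)) m j = some (c (k j)) := (pat_some hq).2 ⟨k j, hlt, hk j, rfl⟩
    rw [h4]; simp

theorem seeker_main (hσ : ∀ q c, (∀ n, q n = σ (hist q c n)) → Legal q) :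
    ∃ Φ : (ℕ → Bool) → (ℕ → Fin 3), Function.Injective Φ ∧
      ∀ y, ∃ q c, (∀ n, q n = σ (hist q c n)) ∧ ∀ C : Set (ℕ → Fin 3), Φ y ∈ C →
        (∀ κ ∈ C, {m | κ m ≠ Φ y m}.Finite → κ = Φ y) → ¬ SeekerWinsRun (SS C) q c := by
  classical
  obtain ⟨comp, hcomp⟩ := exists_comp
  have hfol : ∀ y n, qq σ (rep y) n = σ (hist (qq σ (rep y)) (cc σ (rep y)) n) := by
    intro y n
    rw [← runH_eq]; rfl
  have hleg : ∀ y, Legal (qq σ (rep y)) := fun y => hσ _ _ (hfol y)
  let X : (ℕ → Bool) → ℕ → Pat := fun y m => comp (lp (qq σ (rep y)) (cc σ (rep y)) m) (y m)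
  have hX : ∀ y m, Compl (lp (qq σ (rep y)) (cc σ (rep y)) m) (X y m) :=
    fun y m => (hcomp _).1 _
  refine ⟨fun y => code (X y), ?_, ?_⟩
  · intro y y' hyy
    have hlab : ∀ m, lab (X y m) = lab (X y' m) := fun m => congrFun hyy m
    have hrun : ∀ n, runH σ (rep y) n = runH σ (rep y') n := by
      intro n
      induction n with
      | zero => rfl
      | succ n ih =>
        have e1 : qq σ (rep y) n = qq σ (rep y') n := by unfold qq; rw [ih]
        have e2 : cc σ (rep y) n = cc σ (rep y') n := by
          by_cases hb : IsBlock (qq σ (rep y) n)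
          · obtain ⟨i, m, him⟩ := hb
            have him' : qq σ (rep y') n = s((i : ℕ), 14 + m) := by rw [← e1]; exact him
            have c1 := cc_eq (σ := σ) (rep y) n
            have c2 := cc_eq (σ := σ) (rep y') n
            rw [him, rep_block] at c1
            rw [him', rep_block, ← runH_eq, ← ih, runH_eq] at c2
            set p := pat (hist (qq σ (rep y)) (cc σ (rep y)) n) m with hp
            by_cases hf : Full (fill p i true)
            · rw [if_pos hf] at c1 c2
              by_contra hne
              rw [c1, c2] at hne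
              have hnl : lost 4 p = false := not_lost y (hleg y) n m
              have hnone : p i = none := by
                rw [Option.eq_none_iff_forall_ne_some]
                intro b hb
                rw [hp, pat_some (hleg y)] at hb
                obtain ⟨k, hk1, hk2, _⟩ := hb
                have := (hleg y).inj (hk2.trans him.symm)
                omega
              obtain ⟨x, hx1, hx2⟩ := lost_rel p hnl i hnone
              have hp' : p = pat (hist (qq σ (rep y')) (cc σ (rep y')) n) m := by
                rw [hp, ← runH_eq, ih, runH_eq]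
              have k1 : X y m = setP x i (y m) := by
                funext j
                unfold setP
                split_ifs with hji
                · rw [hji]
                  apply hX y m i
                  rw [lp_some (hleg y)]
                  exact ⟨n, him, c1⟩
                · have h1 := hf j
                  unfold fill at h1
                  rw [if_neg hji] at h1
                  obtain ⟨b, hb⟩ := Option.ne_none_iff_exists'.1 h1
                  rw [hx1 j b hb]
                  apply hX y m j
                  rw [hp, pat_some (hleg y)] at hb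
                  obtain ⟨k, _, hk1, hk2⟩ := hb
                  rw [lp_some (hleg y)]
                  exact ⟨k, hk1, hk2⟩
              have k2 : X y' m = setP x i (y' m) := by
                funext j
                unfold setP
                split_ifs with hji
                · rw [hji]
                  apply hX y' m i
                  rw [lp_some (hleg y')]
                  exact ⟨n, him', c2⟩
                · have h1 := hf j
                  unfold fill at h1
                  rw [if_neg hji] at h1
                  obtain ⟨b, hb⟩ := Option.ne_none_iff_exists'.1 h1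
                  rw [hx1 j b hb]
                  apply hX y' m j
                  rw [hp', pat_some (hleg y')] at hb
                  obtain ⟨k, _, hk1, hk2⟩ := hb
                  rw [lp_some (hleg y')]
                  exact ⟨k, hk1, hk2⟩
              have h3 := hlab m
              rw [k1, k2] at h3
              cases h4 : y m <;> cases h5 : y' m <;> rw [h4, h5] at h3 hne
              · exact hne rfl
              · exact hx2 h3
              · exact hx2 h3.symm
              · exact hne rfl
            · rw [if_neg hf] at c1 c2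
              rw [c1, c2]
          · have hb' : ¬ IsBlock (qq σ (rep y') n) := by rwa [← e1]
            rw [Bool.eq_iff_iff, cc_eq, cc_eq, rep_nonblock _ _ hb, rep_nonblock _ _ hb', e1]
        show runH σ (rep y) n ++ [(qq σ (rep y) n, cc σ (rep y) n)] =
          runH σ (rep y') n ++ [(qq σ (rep y') n, cc σ (rep y') n)]
        rw [ih, e1, e2]
    have hqe : qq σ (rep y) = qq σ (rep y') := by
      funext n; unfold qq; rw [hrun]
    have hce : cc σ (rep y) = cc σ (rep y') := by
      funext n
      have h1 := hrun (n + 1)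
      have h2 : runH σ (rep y) n ++ [(qq σ (rep y) n, cc σ (rep y) n)] =
          runH σ (rep y') n ++ [(qq σ (rep y') n, cc σ (rep y') n)] := h1
      rw [hrun n] at h2
      have h3 := List.append_cancel_left h2
      simp only [List.cons.injEq, Prod.mk.injEq, and_true] at h3
      exact h3.2
    funext m
    by_cases hf : Full (lp (qq σ (rep y)) (cc σ (rep y)) m)
    · obtain ⟨n, i, hn1, hn2⟩ := full_last (hleg y) hf
      have c1 := cc_eq (σ := σ) (rep y) n
      have c2 := cc_eq (σ := σ) (rep y') n
      rw [hn1, rep_block, if_pos hn2] at c1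
      rw [← hqe, ← hce, hn1, rep_block, if_pos hn2] at c2
      rw [← c1, c2]
    · have h1 := (hcomp (lp (qq σ (rep y)) (cc σ (rep y)) m)).2 (not_lost_lp y (hleg y) m) hf
      have h2 : lab (comp (lp (qq σ (rep y)) (cc σ (rep y)) m) (y m)) =
          lab (comp (lp (qq σ (rep y')) (cc σ (rep y')) m) (y' m)) := hlab m
      rw [← hqe, ← hce] at h2
      cases h4 : y m <;> cases h5 : y' m <;> rw [h4, h5] at h2
      · exact absurd h2 h1
      · exact absurd h2.symm h1
  · intro y
    refine ⟨qq σ (rep y), cc σ (rep y), hfol y, ?_⟩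
    intro C hC hCu hwin
    have hq := hleg y
    have hG := H_mem_final y hq (hX y)
    obtain ⟨⟨e, he1, he2⟩, hwin⟩ := hwin
    have hGS : H (X y) ∈ SS C := by
      rw [← Tr_one, mem_SS]; exact hC
    have hsub : final (qq σ (rep y)) (cc σ (rep y)) ⊆ SS C := by
      rcases hwin with h | h
      · exact h
      · exfalso
        have : H (X y) ∈ final (qq σ (rep y)) (cc σ (rep y)) ∩ SS C := ⟨hG, hGS⟩
        rw [h] at this
        exact this
    by_cases hb : IsBlock e
    · obtain ⟨i, m, rfl⟩ := hb
      have hnone : lp (qq σ (rep y)) (cc σ (rep y)) m i = none := lp_none.2 he2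
      obtain ⟨x, hx1, hx2⟩ := lost_rel _ (not_lost_lp y hq m) i hnone
      have key : ∀ b, code (Function.update (X y) m (setP x i b)) = code (X y) := by
        intro b
        apply hCu
        · rw [← mem_SS (π := Equiv.refl ℕ), Tr_one]
          apply hsub
          apply H_mem_final y hq
          intro m'
          by_cases hm : m' = m
          · subst hm
            rw [Function.update_self]
            intro j b' hj
            unfold setP
            split_ifs with hji
            · rw [hji, hnone] at hj; cases hj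
            · exact hx1 j b' hj
          · rw [Function.update_of_ne hm]; exact hX y m'
        · refine (finite_singleton m).subset ?_
          intro m' hm'
          by_contra hne
          apply hm'
          unfold code
          rw [Function.update_of_ne hne]
      have h1 := congrFun (key false) m
      have h2 := congrFun (key true) m
      unfold code at h1 h2
      rw [Function.update_self] at h1 h2
      exact hx2 (h1.trans h2.symm)
    · -- a structural edge is white
      set G' : SimpleGraph ℕ := SimpleGraph.fromEdgeSet (symmDiff (H (X y)).edgeSet {e}) with hG'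
      have hadj : ∀ a b, s(a, b) ≠ e → (G'.Adj a b ↔ (H (X y)).Adj a b) := by
        intro a b hab
        rw [hG', SimpleGraph.fromEdgeSet_adj, Set.mem_symmDiff, mem_singleton_iff,
          SimpleGraph.mem_edgeSet]
        constructor
        · rintro ⟨h1 | h1, _⟩
          · exact h1.1
          · exact absurd h1.1 hab
        · intro h1
          exact ⟨Or.inl ⟨h1, hab⟩, h1.ne⟩
      have hG'S : G' ∈ SS C := by
        apply hsub
        rw [mem_final hq]
        intro n
        rw [← (mem_final hq).1 hG n]
        have hne := he2 n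
        revert hne
        induction qq σ (rep y) n with
        | _ a b =>
          intro hne
          rw [SimpleGraph.mem_edgeSet, SimpleGraph.mem_edgeSet]
          exact hadj a b hne
      obtain ⟨π, x', h1, _⟩ := hG'S
      have h2 := rigid hb (π := π) (x := X y) (x' := x') (fun a b hab => by
        rw [← h1]; exact hadj a b hab)
      rw [← h1] at h2
      clear_value G'
      induction e with
      | _ a b =>
        have h3 := h2 a b
        rw [Sym2.mk_isDiag_iff] at he1
        rw [hG', SimpleGraph.fromEdgeSet_adj, Set.mem_symmDiff, mem_singleton_iff,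
          SimpleGraph.mem_edgeSet] at h3
        by_cases h4 : (H (X y)).Adj a b
        · rcases (h3.2 h4).1 with h5 | h5
          · exact h5.2 rfl
          · exact h5.2 h4
        · exact h4 (h3.1 ⟨Or.inr ⟨rfl, h4⟩, he1⟩)

end run

end Pool.Agent.EdgeGame200
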